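import Pool.Agent.helper90.QM.Defs

/-!
# Homogeneous polynomials: factors, zeros on a pencil

Proof of `homogeneous_of_dvd`: let `Φ : MvPolynomial ι K →ₐ (MvPolynomial ι K)[t]`, `X v ↦ C (X v) * t`
(`MvPolynomial.aeval`).  `f` is homogeneous of degree `n` iff `Φ f = C f * t ^ n` (one direction by
looking at the homogeneous components: `Φ f = ∑ k, C (f_k) * t ^ k`; or prove only what is needed).
If `f = g h`, `f ≠ 0`, then `Φ g * Φ h = C f * t ^ n` in a domain, so (natDegree and
natTrailingDegree are additive) `natDegree (Φ g) = natTrailingDegree (Φ g)`, hence `Φ g` is a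
monomial `C a * t ^ k`, i.e. only one homogeneous component of `g` is nonzero.
Alternative: lowest and highest homogeneous component of `g` and `h`.

Proof of `exists_zero_pencil`: `γ (T) = g (p + T q)` is a polynomial in `T`; if it is zero or not
constant it has a root (algebraically closed).  If it is a constant `c ≠ 0`, then
`g (S p + q) = S ^ m γ (1 / S) = c S ^ m` for all `S ≠ 0`, so both polynomials in `S` agree, and
`S = 0` gives `g (q) = 0` as `m ≥ 1`.
-/

set_option autoImplicit false

namespace Pool.Agent.helper90.QM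

open MvPolynomial

variable {K : Type*} [Field K] {ι : Type*}

/-- the scaling homomorphism `X v ↦ X v * t` -/
noncomputable def HomogPhi (K : Type*) [Field K] (ι : Type*) :
    MvPolynomial ι K →ₐ[K] Polynomial (MvPolynomial ι K) :=
  aeval fun v => Polynomial.C (X v) * Polynomial.X

theorem HomogPhi_monomial (d : ι →₀ ℕ) (a : K) :
    HomogPhi K ι (monomial d a) = Polynomial.monomial d.degree (monomial d a) := by
  unfold HomogPhi
  rw [aeval_monomial]
  have h1 : (d.prod fun i k => (Polynomial.C (X i : MvPolynomial ι K) * Polynomial.X) ^ k) =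
      Polynomial.C (d.prod fun i k => (X i : MvPolynomial ι K) ^ k) *
        Polynomial.X ^ d.degree := by
    simp only [Finsupp.prod, mul_pow, Finset.prod_mul_distrib, map_prod, map_pow]
    congr 1
    rw [Finset.prod_pow_eq_pow_sum]
    rfl
  rw [h1, monomial_eq, ← Polynomial.C_mul_X_pow_eq_monomial, map_mul]
  have h2 : (algebraMap K (Polynomial (MvPolynomial ι K))) a = Polynomial.C (C a) := rfl
  rw [h2, mul_assoc]

theorem HomogPhi_coeff (g : MvPolynomial ι K) (k : ℕ) :
    (HomogPhi K ι g).coeff k = homogeneousComponent k g := by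
  classical
  induction g using MvPolynomial.induction_on' with
  | monomial d a =>
    rw [HomogPhi_monomial, Polynomial.coeff_monomial]
    ext e
    rw [coeff_homogeneousComponent]
    split_ifs with h1 h2 h2
    · rfl
    · rw [coeff_monomial]
      split_ifs with h3
      · subst h3
        exact absurd h1 h2
      · rfl
    · rw [coeff_monomial]
      split_ifs with h3
      · subst h3
        exact absurd h2 h1
      · rfl
    · rfl
  | add f g hf hg =>
    rw [map_add, Polynomial.coeff_add, hf, hg, map_add]

theorem Homog_eval_smul {g : MvPolynomial ι K} {m : ℕ} (hg : g.IsHomogeneous m) (r : K)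
    (x : ι → K) : eval (r • x) g = r ^ m * eval x g := by
  rw [eval_eq, eval_eq, Finset.mul_sum]
  refine Finset.sum_congr rfl fun d hd => ?_
  have h1 : ∏ i ∈ d.support, (r • x) i ^ d i = r ^ m * ∏ i ∈ d.support, x i ^ d i := by
    simp only [Pi.smul_apply, smul_eq_mul, mul_pow, Finset.prod_mul_distrib]
    congr 1
    rw [Finset.prod_pow_eq_pow_sum, hg.degree_eq_sum_deg_support hd]
  rw [h1]
  ring

/-- the restriction of `g` to the line `a + T b` -/
noncomputable def HomogLine (g : MvPolynomial ι K) (a b : ι → K) : Polynomial K :=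
  aeval (fun v => Polynomial.C (a v) + Polynomial.C (b v) * Polynomial.X) g

theorem HomogLine_eval (g : MvPolynomial ι K) (a b : ι → K) (t : K) :
    (HomogLine g a b).eval t = eval (a + t • b) g := by
  unfold HomogLine
  have h1 := MvPolynomial.map_aeval
    (fun v => Polynomial.C (a v) + Polynomial.C (b v) * Polynomial.X) (Polynomial.evalRingHom t) g
  rw [Polynomial.coe_evalRingHom] at h1
  rw [h1]
  have h2 : (Polynomial.evalRingHom t).comp (algebraMap K (Polynomial K)) = RingHom.id K := by
    ext c
    simp
  rw [h2]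
  change eval₂Hom (RingHom.id K) _ g = eval₂Hom (RingHom.id K) _ g
  congr 2
  funext v
  rw [Polynomial.eval_add, Polynomial.eval_mul, Polynomial.eval_C,
    Polynomial.eval_C, Polynomial.eval_X, Pi.add_apply, Pi.smul_apply, smul_eq_mul, mul_comm]

theorem homogeneous_of_dvd {f g : MvPolynomial ι K} {n : ℕ} (hf : f.IsHomogeneous n)
    (hf0 : f ≠ 0) (h : g ∣ f) : ∃ m, g.IsHomogeneous m := by
  obtain ⟨q, hq⟩ := h
  have hn : HomogPhi K ι f = Polynomial.monomial n f := by
    ext1 k
    rw [HomogPhi_coeff, Polynomial.coeff_monomial,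
      homogeneousComponent_of_mem ((mem_homogeneousSubmodule n f).2 hf)]
    by_cases h1 : k = n
    · rw [if_pos h1, if_pos h1.symm]
    · rw [if_neg h1, if_neg (fun h => h1 h.symm)]
  have hmul : HomogPhi K ι g * HomogPhi K ι q = Polynomial.monomial n f := by
    rw [← map_mul, ← hq, hn]
  have hne : Polynomial.monomial n f ≠ 0 := by
    rw [Ne, Polynomial.monomial_eq_zero_iff]
    exact hf0
  have hg0 : HomogPhi K ι g ≠ 0 := fun h => hne (by rw [← hmul, h, zero_mul])
  have hq0 : HomogPhi K ι q ≠ 0 := fun h => hne (by rw [← hmul, h, mul_zero])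
  have h1 := congrArg Polynomial.natDegree hmul
  rw [Polynomial.natDegree_mul hg0 hq0, Polynomial.natDegree_monomial_eq n hf0] at h1
  have h2 := congrArg Polynomial.natTrailingDegree hmul
  rw [Polynomial.natTrailingDegree_mul hg0 hq0, Polynomial.natTrailingDegree_monomial hf0] at h2
  have h3 := Polynomial.natTrailingDegree_le_natDegree (HomogPhi K ι g)
  have h4 := Polynomial.natTrailingDegree_le_natDegree (HomogPhi K ι q)
  have h5 : (HomogPhi K ι g).natTrailingDegree = (HomogPhi K ι g).natDegree := by omega
  refine ⟨(HomogPhi K ι g).natDegree, ?_⟩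
  intro d hd
  have h0 : Finsupp.weight (1 : ι → ℕ) d = d.degree := by
    rw [Finsupp.degree_eq_weight_one]
    rfl
  rw [h0]
  by_contra hcon
  have h6 : (HomogPhi K ι g).coeff d.degree = 0 := by
    rcases lt_or_gt_of_ne hcon with h7 | h7
    · exact Polynomial.coeff_eq_zero_of_lt_natTrailingDegree (by omega)
    · exact Polynomial.coeff_eq_zero_of_natDegree_lt h7
  rw [HomogPhi_coeff] at h6
  have h7 := congrArg (coeff d) h6
  rw [coeff_homogeneousComponent, if_pos rfl, coeff_zero] at h7
  exact hd h7

theorem exists_zero_pencil [IsAlgClosed K] {g : MvPolynomial ι K} {m : ℕ}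
    (hg : g.IsHomogeneous m) (hm : 1 ≤ m) (p q : ι → K) :
    ∃ s t : K, ¬ (s = 0 ∧ t = 0) ∧ eval (s • p + t • q) g = 0 := by
  by_cases h0 : (HomogLine g p q).degree = 0
  · -- constant: the zero is at infinity
    obtain ⟨c, hc⟩ : ∃ c, HomogLine g p q = Polynomial.C c :=
      ⟨_, Polynomial.eq_C_of_degree_eq_zero h0⟩
    have hev : ∀ t : K, eval (p + t • q) g = c := by
      intro t
      rw [← HomogLine_eval, hc, Polynomial.eval_C]
    have hev2 : ∀ r : K, r ≠ 0 → eval (q + r • p) g = c * r ^ m := by
      intro r hr
      have h1 : q + r • p = r • (p + r⁻¹ • q) := by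
        rw [smul_add, smul_smul, mul_inv_cancel₀ hr, one_smul, add_comm]
      rw [h1, Homog_eval_smul hg, hev, mul_comm]
    have h2 : HomogLine g q p = Polynomial.C c * Polynomial.X ^ m := by
      refine Polynomial.eq_of_infinite_eval_eq _ _ ?_
      refine Set.Infinite.mono ?_ (Set.Finite.infinite_compl (Set.finite_singleton (0 : K)))
      intro r hr
      have hr' : r ≠ 0 := hr
      change Polynomial.eval r _ = Polynomial.eval r _
      rw [HomogLine_eval, hev2 r hr', Polynomial.eval_mul, Polynomial.eval_C, Polynomial.eval_pow,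
        Polynomial.eval_X]
    refine ⟨0, 1, by simp, ?_⟩
    have h3 := HomogLine_eval g q p 0
    rw [h2, Polynomial.eval_mul, Polynomial.eval_pow, Polynomial.eval_X,
      zero_pow (by omega), mul_zero, zero_smul, add_zero] at h3
    rw [zero_smul, zero_add, one_smul]
    exact h3.symm
  · obtain ⟨t, ht⟩ := IsAlgClosed.exists_root (HomogLine g p q) h0
    refine ⟨1, t, by simp, ?_⟩
    rw [one_smul, ← HomogLine_eval]
    exact ht

end Pool.Agent.helper90.QM
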