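import Pool.Agent.helper90.QM.Minors

/-!
# The easy direction of the Jacobian criterion

Proof: suppose `Q ≠ 0` in `MvPolynomial J K` of minimal total degree with `aeval G Q = 0`.  Then
`0 = ∂_v (aeval G Q) = ∑ j, aeval G (pderiv j Q) * pderiv v (G j)` for all `v` (chain rule, e.g. by
`MvPolynomial.induction_on` or from a Mathlib lemma on derivations).  A minor of the Jacobian
matrix of `G` is nonzero at `x` (`exists_minor_ne`), so it is a nonzero polynomial, and Cramer gives
`aeval G (pderiv j Q) = 0` for all `j`; by minimality `pderiv j Q = 0` for all `j`, so `Q` is a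
constant (characteristic zero) and `aeval G Q = Q ≠ 0`, contradiction.
-/

set_option autoImplicit false

namespace Pool.Agent.helper90.QM

open MvPolynomial Matrix

variable {K : Type*} [Field K] {ι : Type*} [Fintype ι]

omit [Fintype ι] in
/-- the chain rule -/
theorem jacobian_chain {J : Type*} [Fintype J] [DecidableEq J] (G : J → MvPolynomial ι K) (v : ι)
    (Q : MvPolynomial J K) :
    pderiv v (aeval G Q) = ∑ j, pderiv v (G j) * aeval G (pderiv j Q) := by
  classical
  induction Q using MvPolynomial.induction_on with
  | C a =>
    rw [MvPolynomial.aeval_C]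
    change pderiv v (C a) = _
    simp
  | add p q hp hq =>
    rw [map_add, map_add, hp, hq, ← Finset.sum_add_distrib]
    refine Finset.sum_congr rfl fun j _ => ?_
    rw [map_add, map_add, mul_add]
  | mul_X p i hp =>
    rw [map_mul, aeval_X, pderiv_mul, hp, Finset.sum_mul]
    have h1 : ∀ j, pderiv v (G j) * aeval G (pderiv j (p * X i)) =
        pderiv v (G j) * aeval G (pderiv j p) * G i +
          (if j = i then aeval G p * pderiv v (G i) else 0) := by
      intro j
      rw [pderiv_mul, map_add, map_mul, map_mul, aeval_X]
      by_cases h : j = i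
      · subst h
        rw [pderiv_X_self, map_one, if_pos rfl]
        ring
      · rw [pderiv_X_of_ne (fun e => h e.symm), map_zero, if_neg h]
        ring
    rw [Finset.sum_congr rfl fun j _ => h1 j, Finset.sum_add_distrib, Finset.sum_ite_eq']
    simp

theorem jacobian_totalDegree {J : Type*} (j : J) {Q : MvPolynomial J K} {n : ℕ}
    (h : Q.totalDegree ≤ n + 1) : (pderiv j Q).totalDegree ≤ n := by
  classical
  refine Finset.sup_le fun m hm => ?_
  rw [mem_support_iff, coeff_pderiv] at hm
  have h1 : m + Finsupp.single j 1 ∈ Q.support := by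
    rw [mem_support_iff]
    intro h0
    exact hm (by rw [h0, zero_mul])
  have h2 := le_totalDegree h1
  rw [Finsupp.sum_add_index' (by simp) (by intros; rfl), Finsupp.sum_single_index rfl] at h2
  omega

theorem jacobian_const [CharZero K] {J : Type*} {Q : MvPolynomial J K}
    (h : ∀ j, pderiv j Q = 0) : Q = C (Q.coeff 0) := by
  classical
  ext m
  rw [coeff_C]
  by_cases hm : 0 = m
  · rw [if_pos hm, hm]
  · rw [if_neg hm]
    obtain ⟨j, hj⟩ : ∃ j, m j ≠ 0 := by
      by_contra hcon
      push Not at hcon
      exact hm (Finsupp.ext fun j => (hcon j).symm)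
    have h1 := congrArg (coeff (m - Finsupp.single j 1)) (h j)
    rw [coeff_pderiv, coeff_zero] at h1
    have h2 : m - Finsupp.single j 1 + Finsupp.single j 1 = m := by
      refine tsub_add_cancel_of_le ?_
      rw [Finsupp.single_le_iff]
      omega
    rw [h2] at h1
    rcases mul_eq_zero.1 h1 with h3 | h3
    · exact h3
    · exact absurd h3 (Nat.cast_add_one_ne_zero _)

theorem algebraicIndependent_of_grad [CharZero K] {J : Type*} [Fintype J] [DecidableEq J]
    (G : J → MvPolynomial ι K) (x : ι → K) (h : LinearIndependent K fun j => gradAt (G j) x) :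
    AlgebraicIndependent K G := by
  classical
  obtain ⟨S, hS⟩ := exists_minor_ne (fun j => gradAt (G j) x) h
  have hdet : (Matrix.of fun i j : J => pderiv (S i) (G j)).det ≠ 0 := by
    intro h0
    have h1 := RingHom.map_det (eval x) (Matrix.of fun i j : J => pderiv (S i) (G j))
    rw [h0, map_zero] at h1
    exact hS h1.symm
  -- a constant relation is trivial
  have hconst : ∀ a : K, aeval G (C a : MvPolynomial J K) = 0 → (C a : MvPolynomial J K) = 0 := by
    intro a ha
    rw [MvPolynomial.aeval_C] at ha
    have h1 : (C a : MvPolynomial ι K) = 0 := ha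
    rw [C_eq_zero] at h1
    rw [h1, map_zero]
  have key : ∀ n : ℕ, ∀ Q : MvPolynomial J K, Q.totalDegree ≤ n → aeval G Q = 0 → Q = 0 := by
    intro n
    induction n with
    | zero =>
      intro Q hQ h0
      have h1 := totalDegree_eq_zero_iff_eq_C.1 (Nat.le_zero.1 hQ)
      rw [h1] at h0 ⊢
      exact hconst _ h0
    | succ n ih =>
      intro Q hQ h0
      have hc : (Matrix.of fun i j : J => pderiv (S i) (G j)) *ᵥ
          (fun j => aeval G (pderiv j Q)) = 0 := by
        funext i
        have h1 := jacobian_chain G (S i) Q
        rw [h0, map_zero] at h1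
        exact h1.symm
      have h2 := eq_zero_of_mulVec_eq_zero hdet hc
      have h3 : ∀ j, pderiv j Q = 0 := fun j =>
        ih _ (jacobian_totalDegree j hQ) (congrFun h2 j)
      have h4 := jacobian_const h3
      rw [h4] at h0 ⊢
      exact hconst _ h0
  exact algebraicIndependent_iff.2 fun Q hQ => key _ Q le_rfl hQ

end Pool.Agent.helper90.QM
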