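import Pool.Agent.helper90.QM.NoCommon

/-!
# A line in the direction of a given vector which meets only good points

Let `R = MvPolynomial ι K` and `G S ∈ R[L]` the polynomial `minor F S (x + L ξ)`, i.e.
`shiftHom ξ (minor F S)`.

Step 1 (`isUnit_of_dvd_shift`): if `g ∈ R[L]` divides all the `G S` then `g` is a unit.  Proof: the
algebra automorphism `x ↦ x - L ξ, L ↦ L` of `R[L]` maps `G S` to the constant polynomial
`C (minor F S)`; a divisor of a nonzero constant polynomial of `R[L]` is a constant `C b`
(degrees), and `b ∣ minor F S` for all `S`, so `b` is a unit by `isUnit_of_dvd_minor`.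

Step 2 (`exists_bezout`): let `R` be a UFD (integral domain) and `G : S → R[L]` a finite family
whose only common divisors are units.  Then there are `c : S → R[L]` and `h ∈ R`, `h ≠ 0` with
`∑ c S * G S = C h`.  Proof: over the field of fractions `F` the ideal generated by the `G S` is
generated by one `g`.  If `g` is a unit, clear the denominators.  If not, `g` is nonzero or all
`G S` are zero (excluded); clear denominators and take the primitive part of `g`: a primitive
`g' ∈ R[L]` of positive degree with `g'` dividing `G S` in `F[L]`, hence in `R[L]` (Gauss: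
`Polynomial.IsPrimitive.dvd_of_fraction_map_dvd_fraction_map`, `NormalizedGCDMonoid` from
`UniqueFactorizationMonoid.toNormalizedGCDMonoid`, content/primPart), contradiction.

Step 3: choose `x` with `eval x h ≠ 0` (infinite field, `MvPolynomial.funext`); for `L : K` the
identity `∑ c S (x, L) * minor F S (x + L ξ) = h (x) ≠ 0` shows that some minor is nonzero at
`x + L ξ`, use `eval_minor`, `indep_of_minor`.
-/

set_option autoImplicit false

namespace Pool.Agent.helper90.QM

open MvPolynomial Matrix

theorem exists_bezout {R : Type*} [CommRing R] [IsDomain R] [UniqueFactorizationMonoid R]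
    {S : Type*} [Fintype S] (G : S → Polynomial R)
    (hG : ∀ g : Polynomial R, (∀ s, g ∣ G s) → IsUnit g) :
    ∃ (c : S → Polynomial R) (h : R), h ≠ 0 ∧ ∑ s, c s * G s = Polynomial.C h := by
  classical
  let Q := FractionRing R
  have hinj : Function.Injective (Polynomial.map (algebraMap R Q)) :=
    Polynomial.map_injective _ (IsFractionRing.injective R Q)
  obtain ⟨g, hg⟩ := (IsPrincipalIdealRing.principal
    (Ideal.span (Set.range fun s => (G s).map (algebraMap R Q)))).principal
  have hdvd : ∀ s, g ∣ (G s).map (algebraMap R Q) := by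
    intro s
    rw [← Ideal.mem_span_singleton, ← Ideal.submodule_span_eq, ← hg]
    exact Ideal.subset_span ⟨s, rfl⟩
  have hunit : IsUnit g := by
    by_cases hg0 : g = 0
    · exfalso
      have h0 : ∀ s, (0 : Polynomial R) ∣ G s := by
        intro s
        have h1 := hdvd s
        rw [hg0, zero_dvd_iff] at h1
        rw [zero_dvd_iff]
        apply hinj
        rw [h1, Polynomial.map_zero]
      exact not_isUnit_zero (hG 0 h0)
    · let : NormalizedGCDMonoid R := Nonempty.some inferInstance
      obtain ⟨b, hb, hb'⟩ := IsLocalization.integerNormalization_spec (nonZeroDivisors R) g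
      set p := IsLocalization.integerNormalization (nonZeroDivisors R) g with hp
      have hbne : algebraMap R Q b ≠ 0 := by
        intro h
        exact nonZeroDivisors.ne_zero hb (IsFractionRing.injective R Q (by rw [h, map_zero]))
      have hpg : p.map (algebraMap R Q) = Polynomial.C (algebraMap R Q b) * g := by
        rw [hb', ← algebraMap_smul Q b g, Polynomial.smul_eq_C_mul]
      have hp0 : p ≠ 0 := by
        intro h
        rw [h, Polynomial.map_zero] at hpg
        exact (mul_ne_zero (Polynomial.C_ne_zero.2 hbne) hg0) hpg.symm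
      have hpp : p.primPart.map (algebraMap R Q) ∣ g := by
        have h1 : p.primPart.map (algebraMap R Q) ∣ p.map (algebraMap R Q) :=
          Polynomial.map_dvd _ (Polynomial.primPart_dvd p)
        rw [hpg] at h1
        have hu : IsUnit (Polynomial.C (algebraMap R Q b)) :=
          Polynomial.isUnit_C.2 (isUnit_iff_ne_zero.2 hbne)
        exact (hu.dvd_mul_left).1 h1
      have h2 : IsUnit p.primPart := hG _ fun s =>
        (Polynomial.isPrimitive_primPart p).dvd_of_fraction_map_dvd_fraction_map (K := Q)
          (hpp.trans (hdvd s))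
      have h3 : p.natDegree = 0 := by
        rw [← Polynomial.natDegree_primPart p]
        exact Polynomial.natDegree_eq_zero_of_isUnit h2
      have h4 : g.natDegree = 0 := by
        have h5 : (p.map (algebraMap R Q)).natDegree = 0 :=
          Nat.le_zero.1 ((Polynomial.natDegree_map_le).trans h3.le)
        rw [hpg, Polynomial.natDegree_C_mul hbne] at h5
        exact h5
      rw [Polynomial.eq_C_of_natDegree_eq_zero h4]
      refine Polynomial.isUnit_C.2 (isUnit_iff_ne_zero.2 fun h => hg0 ?_)
      rw [Polynomial.eq_C_of_natDegree_eq_zero h4, h, Polynomial.C_0]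
  have hone : (1 : Polynomial Q) ∈ Ideal.span (Set.range fun s => (G s).map (algebraMap R Q)) := by
    rw [hg, Ideal.submodule_span_eq, Ideal.mem_span_singleton]
    exact hunit.dvd
  obtain ⟨a, ha⟩ := (Ideal.mem_span_range_iff_exists_fun).1 hone
  choose b hb hb' using fun s => IsLocalization.integerNormalization_spec (nonZeroDivisors R) (a s)
  refine ⟨fun s => Polynomial.C (∏ t ∈ Finset.univ.erase s, b t) *
    IsLocalization.integerNormalization (nonZeroDivisors R) (a s), ∏ t, b t, ?_, ?_⟩
  · exact Finset.prod_ne_zero_iff.2 fun t _ => nonZeroDivisors.ne_zero (hb t)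
  · apply hinj
    rw [Polynomial.map_C, Polynomial.map_sum]
    have h6 : ∀ s, (Polynomial.C (∏ t ∈ Finset.univ.erase s, b t) *
        IsLocalization.integerNormalization (nonZeroDivisors R) (a s) * G s).map
          (algebraMap R Q) = Polynomial.C (algebraMap R Q (∏ t, b t)) *
            (a s * (G s).map (algebraMap R Q)) := by
      intro s
      rw [Polynomial.map_mul, Polynomial.map_mul, Polynomial.map_C, hb' s,
        ← algebraMap_smul Q (b s) (a s), Polynomial.smul_eq_C_mul,
        ← Finset.prod_erase_mul Finset.univ b (Finset.mem_univ s), map_mul, Polynomial.C_mul]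
      ring
    rw [Finset.sum_congr rfl fun s _ => h6 s, ← Finset.mul_sum, ha, mul_one]

variable {K : Type*} [Field K] {ι I : Type*} [Fintype I] [DecidableEq I] [Fintype ι]

theorem Line_exists_minor_ne {P : Matrix ι ι (MvPolynomial ι K)}
    {F : I → MvPolynomial ι K} {d : I → ℕ} {p q : ι → K} (h : Good P F d p q) :
    ∃ S : I → ι, minor F S ≠ 0 := by
  have h1 := h.pencil 1 0 (fun h => one_ne_zero h.1)
  obtain ⟨S, hS⟩ := exists_minor_ne _ h1
  refine ⟨S, fun h0 => hS ?_⟩
  rw [← eval_minor, h0, map_zero]

theorem isUnit_of_dvd_shift [IsAlgClosed K] {P : Matrix ι ι (MvPolynomial ι K)}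
    {F : I → MvPolynomial ι K} {d : I → ℕ} {p q : ι → K} (h : Good P F d p q) (ξ : ι → K)
    (g : Polynomial (MvPolynomial ι K)) (hg : ∀ S : I → ι, g ∣ shiftHom ξ (minor F S)) :
    IsUnit g := by
  let Φ : (ι → K) → Polynomial (MvPolynomial ι K) →+* Polynomial (MvPolynomial ι K) := fun ζ =>
    Polynomial.eval₂RingHom (shiftHom ζ : MvPolynomial ι K →ₐ[K] _).toRingHom Polynomial.X
  have hcomp : ∀ ζ : ι → K, ∀ f : MvPolynomial ι K, Φ (-ζ) (shiftHom ζ f) = Polynomial.C f := by
    intro ζ f
    have h1 : ((Φ (-ζ)).comp (shiftHom ζ : MvPolynomial ι K →ₐ[K] _).toRingHom) =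
        (Polynomial.C : MvPolynomial ι K →+* Polynomial (MvPolynomial ι K)) := by
      apply MvPolynomial.ringHom_ext
      · intro r
        simp [Φ, shiftHom]
      · intro v
        simp [Φ, shiftHom]
        ring
    exact congrArg (fun φ => φ f) h1
  have hinv : ∀ u : Polynomial (MvPolynomial ι K), Φ ξ (Φ (-ξ) u) = u := by
    intro u
    have h1 : (Φ ξ).comp (Φ (-ξ)) = RingHom.id _ := by
      apply Polynomial.ringHom_ext
      · intro f
        have h2 := hcomp (-ξ) f
        rw [neg_neg] at h2
        simpa [Φ] using h2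
      · simp [Φ]
    exact congrArg (fun φ => φ u) h1
  have hdvd : ∀ S : I → ι, Φ (-ξ) g ∣ Polynomial.C (minor F S) := by
    intro S
    rw [← hcomp ξ]
    exact map_dvd _ (hg S)
  obtain ⟨S, hS⟩ := Line_exists_minor_ne h
  have hdeg : (Φ (-ξ) g).natDegree = 0 := by
    have h1 := Polynomial.natDegree_le_of_dvd (hdvd S) (Polynomial.C_ne_zero.2 hS)
    rw [Polynomial.natDegree_C] at h1
    exact Nat.le_zero.1 h1
  have hC := Polynomial.eq_C_of_natDegree_eq_zero hdeg
  have hb : IsUnit ((Φ (-ξ) g).coeff 0) := by
    refine isUnit_of_dvd_minor h _ fun S => ?_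
    have h1 := hdvd S
    rw [hC, Polynomial.C_dvd_iff_dvd_coeff] at h1
    simpa using h1 0
  have hu : IsUnit (Φ (-ξ) g) := by
    rw [hC]
    exact Polynomial.isUnit_C.2 hb
  rw [← hinv g]
  exact hu.map _

theorem exists_line [IsAlgClosed K] {P : Matrix ι ι (MvPolynomial ι K)}
    {F : I → MvPolynomial ι K} {d : I → ℕ} {p q : ι → K} (h : Good P F d p q) (ξ : ι → K) :
    ∃ x : ι → K, ∀ L : K, LinearIndependent K fun i => gradAt (F i) (x + L • ξ) := by
  classical
  have : Infinite K := IsAlgClosed.instInfinite
  obtain ⟨c, h0, hne, hsum⟩ := exists_bezout (S := I → ι)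
    (fun S => shiftHom ξ (minor F S)) (fun g hg => isUnit_of_dvd_shift h ξ g hg)
  obtain ⟨x, hx⟩ : ∃ x : ι → K, eval x h0 ≠ 0 := by
    by_contra hcon
    push Not at hcon
    exact hne (MvPolynomial.funext fun x => by rw [hcon x, map_zero])
  refine ⟨x, fun L => ?_⟩
  let ev : Polynomial (MvPolynomial ι K) →+* K := Polynomial.eval₂RingHom (eval x) L
  have hev : ∀ f : MvPolynomial ι K, ev (shiftHom ξ f) = eval (x + L • ξ) f := by
    intro f
    have h1 : ev.comp (shiftHom ξ : MvPolynomial ι K →ₐ[K] _).toRingHom = eval (x + L • ξ) := by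
      apply MvPolynomial.ringHom_ext
      · intro r
        simp [ev, shiftHom]
      · intro v
        simp only [ev, shiftHom, RingHom.comp_apply, AlgHom.toRingHom_eq_coe, RingHom.coe_coe,
          aeval_X, map_add, map_mul, Polynomial.coe_eval₂RingHom, Polynomial.eval₂_C,
          Polynomial.eval₂_X, eval_X, eval_C, Pi.add_apply, Pi.smul_apply, smul_eq_mul]
        ring
    exact congrArg (fun φ => φ f) h1
  have h2 : ∑ S, ev (c S) * eval (x + L • ξ) (minor F S) = eval x h0 := by
    have h3 := congrArg ev hsum
    rw [map_sum] at h3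
    simp only [map_mul, hev] at h3
    rw [h3]
    simp [ev]
  obtain ⟨S, hS⟩ : ∃ S : I → ι, eval (x + L • ξ) (minor F S) ≠ 0 := by
    by_contra hcon
    push Not at hcon
    apply hx
    rw [← h2]
    exact Finset.sum_eq_zero fun S _ => by rw [hcon S, mul_zero]
  rw [eval_minor] at hS
  exact indep_of_minor _ S hS

end Pool.Agent.helper90.QM
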