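import Mathlib

/-!
# Independence of the coefficients of the kernel vectors of a pencil

Proof (helper61): `Rel = {c : (Σ i, Fin (d i)) → K | ∑ c j • v j.1 j.2 = 0}`.  For `c ∈ Rel` put
`w = ∑ i, ∑ m < d i - 1, c (i, m + 1) • v i m`.  Applying `A` to the relation, `B w = 0`.  The
vectors `v i (d i - 1)` are in `ker B` (as `A (v i (d i)) = 0 = - B (v i (d i - 1))`), independent
and `finrank (ker B) ≤ card I`, so they are a basis of `ker B`, and `w = ∑ b i • v i (d i - 1)`
with unique `b`.  So `c' (i, m) = c (i, m + 1)` (`m < d i - 1`), `c' (i, d i - 1) = - b i` is again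
in `Rel`, and `c ↦ c'` is linear.  If `Rel ≠ 0` there is an eigenvector `c ≠ 0`, `c' = ρ c`
(`Module.End.exists_eigenvalue`), so `c (i, m) = ρ ^ m * c (i, 0)`, and the relation says
`∑ i, c (i, 0) • ∑ m < d i, ρ ^ m • v i m = 0`, so `c (i, 0) = 0` for all `i` by `hind`, hence
`c = 0`.
-/

set_option autoImplicit false

namespace Pool.Agent.helper90.QM

open Matrix

/-- the entry `c (i, m)` as a linear form, zero for `m ≥ d i` -/
noncomputable def Pencil_e {K : Type*} [Field K] {I : Type*} (d : I → ℕ) (i : I) (m : ℕ) :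
    ((Σ i, Fin (d i)) → K) →ₗ[K] K :=
  if h : m < d i then LinearMap.proj (⟨i, ⟨m, h⟩⟩ : Σ i, Fin (d i)) else 0

theorem Pencil_e_of_lt {K : Type*} [Field K] {I : Type*} (d : I → ℕ) (i : I) (m : ℕ) (h : m < d i)
    (c : (Σ i, Fin (d i)) → K) : Pencil_e d i m c = c ⟨i, ⟨m, h⟩⟩ := by
  unfold Pencil_e
  rw [dif_pos h]
  rfl

theorem Pencil_sum {K : Type*} [Field K] {ι I : Type*} [Fintype I] (d : I → ℕ)
    (v : I → ℕ → ι → K) (c : (Σ i, Fin (d i)) → K) :
    ∑ j : (Σ i, Fin (d i)), c j • v j.1 j.2 =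
      ∑ i, ∑ m ∈ Finset.range (d i), Pencil_e d i m c • v i m := by
  rw [Fintype.sum_sigma]
  refine Finset.sum_congr rfl fun i _ => ?_
  rw [Finset.sum_range]
  refine Finset.sum_congr rfl fun m _ => ?_
  rw [Pencil_e_of_lt d i m m.2]

/-- the shifted sum -/
noncomputable def Pencil_w {K : Type*} [Field K] {ι I : Type*} [Fintype I] (d : I → ℕ)
    (v : I → ℕ → ι → K) : ((Σ i, Fin (d i)) → K) →ₗ[K] (ι → K) :=
  ∑ i, ∑ m ∈ Finset.range (d i - 1), (Pencil_e d i (m + 1)).smulRight (v i m)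

theorem Pencil_w_apply {K : Type*} [Field K] {ι I : Type*} [Fintype I] (d : I → ℕ)
    (v : I → ℕ → ι → K) (c : (Σ i, Fin (d i)) → K) :
    Pencil_w d v c = ∑ i, ∑ m ∈ Finset.range (d i - 1), Pencil_e d i (m + 1) c • v i m := by
  simp [Pencil_w, LinearMap.sum_apply]

theorem Pencil_Bw {K : Type*} [Field K] {ι I : Type*} [Fintype ι] [Fintype I]
    (A B : Matrix ι ι K) (d : I → ℕ) (hd : ∀ i, 1 ≤ d i) (v : I → ℕ → ι → K)
    (h0 : ∀ i, A.mulVec (v i 0) = 0)
    (h1 : ∀ i m, A.mulVec (v i (m + 1)) = - B.mulVec (v i m))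
    (c : (Σ i, Fin (d i)) → K) (hc : ∑ j : (Σ i, Fin (d i)), c j • v j.1 j.2 = 0) :
    B.mulVecLin (Pencil_w d v c) = 0 := by
  have hA : A.mulVecLin (∑ j : (Σ i, Fin (d i)), c j • v j.1 j.2) = - B.mulVecLin (Pencil_w d v c) := by
    rw [Pencil_sum, Pencil_w_apply, map_sum, map_sum, ← Finset.sum_neg_distrib]
    refine Finset.sum_congr rfl fun i _ => ?_
    obtain ⟨n, hn⟩ : ∃ n, d i = n + 1 := ⟨d i - 1, by have := hd i; omega⟩
    rw [hn, Finset.sum_range_succ', Nat.add_sub_cancel, map_add, map_sum, map_sum, map_smul,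
      Matrix.mulVecLin_apply, h0, smul_zero, add_zero, ← Finset.sum_neg_distrib]
    refine Finset.sum_congr rfl fun m _ => ?_
    rw [map_smul, map_smul, Matrix.mulVecLin_apply, Matrix.mulVecLin_apply, h1, smul_neg]
  rw [hc, map_zero] at hA
  exact neg_eq_zero.mp hA.symm

theorem Pencil_shift_sum {K : Type*} [Field K] {ι I : Type*} [Fintype I]
    (d : I → ℕ) (hd : ∀ i, 1 ≤ d i) (v : I → ℕ → ι → K)
    (c c' : (Σ i, Fin (d i)) → K) (b : I → K)
    (h1 : ∀ i m, m + 1 < d i → Pencil_e d i m c' = Pencil_e d i (m + 1) c)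
    (h2 : ∀ i, Pencil_e d i (d i - 1) c' = - b i) :
    ∑ j : (Σ i, Fin (d i)), c' j • v j.1 j.2 = Pencil_w d v c - ∑ i, b i • v i (d i - 1) := by
  rw [Pencil_sum, Pencil_w_apply, ← Finset.sum_sub_distrib]
  refine Finset.sum_congr rfl fun i _ => ?_
  have h2i := h2 i
  have h1i := h1 i
  obtain ⟨n, hn⟩ : ∃ n, d i = n + 1 := ⟨d i - 1, by have := hd i; omega⟩
  rw [hn, Nat.add_sub_cancel] at h2i
  rw [hn, Finset.sum_range_succ, Nat.add_sub_cancel, h2i, neg_smul, ← sub_eq_add_neg]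
  congr 1
  refine Finset.sum_congr rfl fun m hm => ?_
  rw [Finset.mem_range] at hm
  rw [h1i m (by omega)]

theorem pencil_indep {K : Type*} [Field K] [IsAlgClosed K] {ι I : Type*} [Fintype ι] [Fintype I]
    (A B : Matrix ι ι K) (d : I → ℕ) (hd : ∀ i, 1 ≤ d i) (v : I → ℕ → ι → K)
    (hv : ∀ i m, d i ≤ m → v i m = 0) (h0 : ∀ i, A.mulVec (v i 0) = 0)
    (h1 : ∀ i m, A.mulVec (v i (m + 1)) = - B.mulVec (v i m))
    (htop : LinearIndependent K fun i => v i (d i - 1))
    (hB : Module.finrank K (LinearMap.ker B.mulVecLin) ≤ Fintype.card I)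
    (hind : ∀ L : K, LinearIndependent K fun i => ∑ m ∈ Finset.range (d i), L ^ m • v i m) :
    LinearIndependent K fun j : Σ i, Fin (d i) => v j.1 j.2 := by
  classical
  rcases isEmpty_or_nonempty I with hI | hI
  · have : IsEmpty (Σ i, Fin (d i)) := ⟨fun j => hI.elim j.1⟩
    exact linearIndependent_empty_type
  -- the basis of the kernel of `B`
  have hu : ∀ i, v i (d i - 1) ∈ LinearMap.ker B.mulVecLin := by
    intro i
    rw [LinearMap.mem_ker, Matrix.mulVecLin_apply]
    have h := h1 i (d i - 1)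
    rw [Nat.sub_add_cancel (hd i), hv i (d i) le_rfl, Matrix.mulVec_zero] at h
    exact neg_eq_zero.mp h.symm
  have hui : LinearIndependent K fun i => (⟨v i (d i - 1), hu i⟩ : LinearMap.ker B.mulVecLin) :=
    LinearIndependent.of_comp (LinearMap.ker B.mulVecLin).subtype htop
  have hcard : Fintype.card I = Module.finrank K (LinearMap.ker B.mulVecLin) :=
    le_antisymm hui.fintype_card_le_finrank hB
  let bas := basisOfLinearIndependentOfCardEqFinrank hui hcard
  have hbas : ∀ i, ((bas i : LinearMap.ker B.mulVecLin) : ι → K) = v i (d i - 1) := by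
    intro i
    simp [bas]
  -- the relations
  let Phi : ((Σ i, Fin (d i)) → K) →ₗ[K] (ι → K) :=
    Fintype.linearCombination K (fun j : (Σ i, Fin (d i)) => v j.1 j.2)
  have hPhi : ∀ c, Phi c = ∑ j : (Σ i, Fin (d i)), c j • v j.1 j.2 := fun c => rfl
  let Rel := LinearMap.ker Phi
  have hRel : ∀ c : Rel, ∑ j : (Σ i, Fin (d i)), (c : (Σ i, Fin (d i)) → K) j • v j.1 j.2 = 0 := by
    intro c
    rw [← hPhi]
    exact LinearMap.mem_ker.mp c.2
  let W : Rel →ₗ[K] LinearMap.ker B.mulVecLin :=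
    LinearMap.codRestrict _ ((Pencil_w d v).comp Rel.subtype)
      (fun c => LinearMap.mem_ker.mpr (Pencil_Bw A B d hd v h0 h1 c (hRel c)))
  have hW : ∀ c : Rel, ((W c : LinearMap.ker B.mulVecLin) : ι → K) = Pencil_w d v c := fun c => rfl
  let S0 : Rel →ₗ[K] ((Σ i, Fin (d i)) → K) :=
    LinearMap.pi fun j =>
      if h : (j.2 : ℕ) + 1 < d j.1 then (Pencil_e d j.1 ((j.2 : ℕ) + 1)).comp Rel.subtype
      else - (LinearMap.proj j.1).comp (bas.equivFun.toLinearMap.comp W)
  have hS1 : ∀ (c : Rel) (i : I) (m : ℕ), m + 1 < d i →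
      Pencil_e d i m (S0 c) = Pencil_e d i (m + 1) (c : (Σ i, Fin (d i)) → K) := by
    intro c i m hm
    rw [Pencil_e_of_lt d i m (by omega)]
    simp only [S0, LinearMap.pi_apply]
    rw [dif_pos hm]
    rfl
  have hS2 : ∀ (c : Rel) (i : I), Pencil_e d i (d i - 1) (S0 c) = - (bas.equivFun (W c) i) := by
    intro c i
    have := hd i
    rw [Pencil_e_of_lt d i (d i - 1) (by omega)]
    simp only [S0, LinearMap.pi_apply]
    rw [dif_neg (by simp; omega)]
    rfl
  have hS0 : ∀ c : Rel, S0 c ∈ Rel := by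
    intro c
    rw [LinearMap.mem_ker, hPhi, Pencil_shift_sum d hd v c (S0 c) (fun i => bas.equivFun (W c) i)
      (hS1 c) (hS2 c), sub_eq_zero, ← hW c]
    have h := congrArg (fun z : LinearMap.ker B.mulVecLin => (z : ι → K)) (bas.sum_equivFun (W c))
    rw [← h]
    simp only [AddSubmonoidClass.coe_finsetSum, SetLike.val_smul, hbas]
  let S : Module.End K Rel := LinearMap.codRestrict Rel S0 hS0
  have hS : ∀ c : Rel, ((S c : Rel) : (Σ i, Fin (d i)) → K) = S0 c := fun c => rfl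
  by_contra hcon
  have hnt : Nontrivial Rel := by
    rw [Submodule.nontrivial_iff_ne_bot]
    intro hbot
    apply hcon
    rw [Fintype.linearIndependent_iff]
    intro g hg
    have hg' : g ∈ Rel := by
      rw [LinearMap.mem_ker, hPhi]
      exact hg
    rw [hbot, Submodule.mem_bot] at hg'
    intro j
    rw [hg']
    rfl
  obtain ⟨ρ, hρ⟩ := Module.End.exists_eigenvalue S
  obtain ⟨c, hc⟩ := hρ.exists_hasEigenvector
  have hSc : S c = ρ • c := hc.apply_eq_smul
  have hc0 : c ≠ 0 := hc.2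
  have hstep : ∀ (i : I) (m : ℕ), m + 1 < d i →
      Pencil_e d i (m + 1) (c : (Σ i, Fin (d i)) → K) = ρ * Pencil_e d i m (c : (Σ i, Fin (d i)) → K) := by
    intro i m hm
    rw [← hS1 c i m hm, ← hS c, hSc, Submodule.coe_smul, map_smul, smul_eq_mul]
  have hpow : ∀ (i : I) (m : ℕ), m < d i →
      Pencil_e d i m (c : (Σ i, Fin (d i)) → K) = ρ ^ m * Pencil_e d i 0 (c : (Σ i, Fin (d i)) → K) := by
    intro i m
    induction m with
    | zero => intro _; simp
    | succ m ih =>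
      intro hm
      rw [hstep i m hm, ih (by omega), pow_succ]
      ring
  have hzero : ∀ i, Pencil_e d i 0 (c : (Σ i, Fin (d i)) → K) = 0 := by
    have hr := hRel c
    rw [Pencil_sum] at hr
    have hr' : ∑ i, Pencil_e d i 0 (c : (Σ i, Fin (d i)) → K) •
        ∑ m ∈ Finset.range (d i), ρ ^ m • v i m = 0 := by
      rw [← hr]
      refine Finset.sum_congr rfl fun i _ => ?_
      rw [Finset.smul_sum]
      refine Finset.sum_congr rfl fun m hm => ?_
      rw [hpow i m (Finset.mem_range.mp hm), smul_smul, mul_comm]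
    exact Fintype.linearIndependent_iff.mp (hind ρ) _ hr'
  apply hc0
  apply Subtype.ext
  funext j
  have hj := hpow j.1 j.2 j.2.2
  rw [hzero, mul_zero, Pencil_e_of_lt d j.1 j.2 j.2.2] at hj
  exact hj

end Pool.Agent.helper90.QM
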