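import Pool.Agent.helper90.QM.Combo

/-!
# At a regular point the gradients of the `F i` are independent

Proof: take `T, r` from `exists_border` for `evalMat P ξ`, `δ = (border P T r).det`, so
`eval ξ δ ≠ 0`, and `δ ^ l * minor F S = det (C_S) * minor F T` for all `S` (`minor_border`); hence
`minor F T ≠ 0` (some minor is nonzero, at the point `p`).  If `eval ξ (minor F T) = 0`, some
irreducible factor `π` of `minor F T` has `eval ξ π = 0`
(`UniqueFactorizationMonoid` / `WfDvdMonoid.exists_irreducible_factor`, induction over the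
factors), `π` is prime and does not divide `δ`, so `π ∣ minor F S` for all `S`, against
`isUnit_of_dvd_minor`.  So `eval ξ (minor F T) ≠ 0`, use `eval_minor` and `indep_of_minor`.
-/

set_option autoImplicit false

namespace Pool.Agent.helper90.QM

open MvPolynomial Matrix

variable {K : Type*} [Field K] {ι I : Type*} [Fintype I] [DecidableEq I] [Fintype ι]
  [DecidableEq ι]

theorem RegIndep_eval_border {P : Matrix ι ι (MvPolynomial ι K)} (T : I → ι) (r : ι → ι ⊕ I)
    (ξ : ι → K) : eval ξ (border P T r).det = (border (evalMat P ξ) T r).det := by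
  rw [RingHom.map_det]
  congr 1
  ext v w
  simp only [border, evalMat, RingHom.mapMatrix_apply, Matrix.map_apply, Matrix.of_apply]
  cases r v with
  | inl u => simp
  | inr i =>
    simp only [Sum.elim_inr]
    split_ifs <;> simp

theorem reg_indep [IsAlgClosed K] {P : Matrix ι ι (MvPolynomial ι K)}
    {F : I → MvPolynomial ι K} {d : I → ℕ} {p q : ι → K} (h : Good P F d p q) {ξ : ι → K}
    (hξ : Reg P (Fintype.card I) ξ) : LinearIndependent K fun i => gradAt (F i) ξ := by
  obtain ⟨S0, hS0⟩ := exists_minor_ne _ (h.pencil 1 0 (by simp))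
  rw [← eval_minor] at hS0
  have hS0' : minor F S0 ≠ 0 := by
    intro h0
    rw [h0, map_zero] at hS0
    exact hS0 rfl
  obtain ⟨T, r, hTr⟩ := exists_border (I := I) (evalMat P ξ) hξ ⟨S0⟩
  rw [← RegIndep_eval_border] at hTr
  have hδ : (border P T r).det ≠ 0 := by
    intro h0
    rw [h0, map_zero] at hTr
    exact hTr rfl
  have hb := fun S => minor_border h.inv T r S
  have hT : minor F T ≠ 0 := by
    intro h0
    have h1 := hb S0
    rw [h0, mul_zero] at h1
    exact mul_ne_zero (pow_ne_zero _ hδ) hS0' h1
  have hev : eval ξ (minor F T) ≠ 0 := by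
    intro h0
    obtain ⟨f, hf, hfa⟩ := UniqueFactorizationMonoid.exists_prime_factors (minor F T) hT
    obtain ⟨u, hu⟩ := hfa
    have h1 : eval ξ f.prod = 0 := by
      rw [← hu, map_mul] at h0
      rcases mul_eq_zero.mp h0 with h2 | h2
      · exact h2
      · exact absurd h2 ((u.isUnit.map (eval ξ)).ne_zero)
    rw [map_multiset_prod, Multiset.prod_eq_zero_iff, Multiset.mem_map] at h1
    obtain ⟨π, hπ, hπ0⟩ := h1
    have hprime := hf π hπ
    have hdvdT : π ∣ minor F T := by
      rw [← hu]
      exact (Multiset.dvd_prod hπ).mul_right _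
    have hall : ∀ S : I → ι, π ∣ minor F S := by
      intro S
      have h3 : π ∣ (border P T r).det ^ Fintype.card I * minor F S := by
        rw [hb S]
        exact hdvdT.mul_left _
      rcases hprime.dvd_or_dvd h3 with h4 | h4
      · exfalso
        obtain ⟨e, he⟩ := hprime.dvd_of_dvd_pow h4
        apply hTr
        rw [he, map_mul, hπ0, zero_mul]
      · exact h4
    exact hprime.not_unit (isUnit_of_dvd_minor h π hall)
  rw [eval_minor] at hev
  exact indep_of_minor _ T hev

end Pool.Agent.helper90.QM
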