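import Pool.Agent.helper90.QM.Defs

/-!
# The coefficients of `f (x + t ξ)`
-/

set_option autoImplicit false

namespace Pool.Agent.helper90.QM

open MvPolynomial

variable {K : Type*} [Field K] {ι : Type*}

private theorem shiftCoeff_C (ξ : ι → K) (a : K) (m : ℕ) :
    shiftCoeff ξ (C a : MvPolynomial ι K) m = if m = 0 then C a else 0 := by
  unfold shiftCoeff shiftHom
  rw [MvPolynomial.aeval_C, Polynomial.algebraMap_apply, Polynomial.coeff_C,
    MvPolynomial.algebraMap_eq]

private theorem shiftCoeff_add (ξ : ι → K) (f g : MvPolynomial ι K) (m : ℕ) :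
    shiftCoeff ξ (f + g) m = shiftCoeff ξ f m + shiftCoeff ξ g m := by
  unfold shiftCoeff
  rw [map_add, Polynomial.coeff_add]

private theorem shiftHom_X (ξ : ι → K) (n : ι) :
    shiftHom ξ (X n) = Polynomial.C (X n) + Polynomial.C (C (ξ n)) * Polynomial.X := by
  unfold shiftHom
  rw [MvPolynomial.aeval_X]

private theorem shiftCoeff_mul_X_zero (ξ : ι → K) (f : MvPolynomial ι K) (n : ι) :
    shiftCoeff ξ (f * X n) 0 = shiftCoeff ξ f 0 * X n := by
  unfold shiftCoeff
  rw [map_mul, shiftHom_X, Polynomial.mul_coeff_zero]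
  simp

private theorem shiftCoeff_mul_X_succ (ξ : ι → K) (f : MvPolynomial ι K) (n : ι) (m : ℕ) :
    shiftCoeff ξ (f * X n) (m + 1) =
      shiftCoeff ξ f (m + 1) * X n + shiftCoeff ξ f m * C (ξ n) := by
  unfold shiftCoeff
  rw [map_mul, shiftHom_X, mul_add, Polynomial.coeff_add, Polynomial.coeff_mul_C,
    ← mul_assoc, Polynomial.coeff_mul_X, Polynomial.coeff_mul_C]

/-- `∂_v` commutes with the shift -/
theorem pderiv_shiftCoeff (ξ : ι → K) (f : MvPolynomial ι K) (m : ℕ) (v : ι) :
    pderiv v (shiftCoeff ξ f m) = shiftCoeff ξ (pderiv v f) m := by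
  classical
  induction f using MvPolynomial.induction_on generalizing m with
  | C a =>
    rw [MvPolynomial.pderiv_C, shiftCoeff_C]
    have h0 : shiftCoeff ξ (0 : MvPolynomial ι K) m = 0 := by
      unfold shiftCoeff
      rw [map_zero, Polynomial.coeff_zero]
    rw [h0]
    split_ifs
    · rw [MvPolynomial.pderiv_C]
    · rw [map_zero]
  | add f g hf hg =>
    rw [shiftCoeff_add, map_add, hf, hg, map_add, shiftCoeff_add]
  | mul_X f n hf =>
    have key : pderiv v (f * X n) = pderiv v f * X n + C (if n = v then (1 : K) else 0) * f := by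
      rw [MvPolynomial.pderiv_mul, MvPolynomial.pderiv_X]
      by_cases h : n = v
      · subst h
        simp [mul_comm]
      · simp [h]
    have hCm : ∀ (a : K) (g : MvPolynomial ι K) (m : ℕ),
        shiftCoeff ξ (C a * g) m = C a * shiftCoeff ξ g m := by
      intro a g m
      unfold shiftCoeff
      have : shiftHom ξ (C a : MvPolynomial ι K) = Polynomial.C (C a) := by
        unfold shiftHom
        rw [MvPolynomial.aeval_C, Polynomial.algebraMap_apply, MvPolynomial.algebraMap_eq]
      rw [map_mul, this, Polynomial.coeff_C_mul]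
    have hX : pderiv v (X n : MvPolynomial ι K) = C (if n = v then (1 : K) else 0) := by
      rw [MvPolynomial.pderiv_X]
      by_cases h : n = v
      · subst h
        simp
      · simp [h]
    rw [key, shiftCoeff_add, hCm]
    cases m with
    | zero =>
      rw [shiftCoeff_mul_X_zero, shiftCoeff_mul_X_zero, MvPolynomial.pderiv_mul, hf, hX]
      ring
    | succ m =>
      rw [shiftCoeff_mul_X_succ, shiftCoeff_mul_X_succ, map_add, MvPolynomial.pderiv_mul,
        MvPolynomial.pderiv_mul, MvPolynomial.pderiv_C, hf, hf, hX]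
      ring

/-- `f (x + L ξ) = ∑ m, L ^ m * (coefficient of t ^ m)(x)` -/
theorem eval_shift (ξ : ι → K) (f : MvPolynomial ι K) (x : ι → K) (L : K) (N : ℕ)
    (hN : ∀ m, N ≤ m → shiftCoeff ξ f m = 0) :
    eval (x + L • ξ) f = ∑ m ∈ Finset.range N, L ^ m * eval x (shiftCoeff ξ f m) := by
  have h0 : (eval (x + L • ξ) : MvPolynomial ι K →+* K) =
      (((Polynomial.evalRingHom L).comp (Polynomial.mapRingHom (eval x))).comp
        (shiftHom ξ).toRingHom) := by
    apply MvPolynomial.ringHom_ext
    · intro a
      simp only [MvPolynomial.eval_C, RingHom.coe_comp, Function.comp_apply,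
        AlgHom.toRingHom_eq_coe, RingHom.coe_coe]
      unfold shiftHom
      rw [MvPolynomial.aeval_C, Polynomial.algebraMap_apply, MvPolynomial.algebraMap_eq]
      simp
    · intro n
      simp only [MvPolynomial.eval_X, RingHom.coe_comp, Function.comp_apply,
        AlgHom.toRingHom_eq_coe, RingHom.coe_coe]
      rw [shiftHom_X]
      simp only [Polynomial.coe_mapRingHom, Polynomial.coe_evalRingHom, Polynomial.map_add,
        Polynomial.map_mul, Polynomial.map_C, Polynomial.map_X, Polynomial.eval_add,
        Polynomial.eval_mul, Polynomial.eval_C, Polynomial.eval_X, MvPolynomial.eval_X,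
        MvPolynomial.eval_C, Pi.add_apply, Pi.smul_apply, smul_eq_mul]
      ring
  have h1 : eval (x + L • ξ) f = Polynomial.eval L ((shiftHom ξ f).map (eval x)) := by
    rw [h0]
    rfl
  have h2 : ((shiftHom ξ f).map (eval x)).natDegree ≤ N := by
    rw [Polynomial.natDegree_le_iff_coeff_eq_zero]
    intro m hm
    rw [Polynomial.coeff_map]
    have := hN m hm.le
    unfold shiftCoeff at this
    rw [this, map_zero]
  rw [h1, Polynomial.eval_eq_sum_range' (Nat.lt_succ_of_le h2), Finset.sum_range_succ]
  have h3 : ((shiftHom ξ f).map (eval x)).coeff N = 0 := by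
    rw [Polynomial.coeff_map]
    have := hN N le_rfl
    unfold shiftCoeff at this
    rw [this, map_zero]
  rw [h3, zero_mul, add_zero]
  apply Finset.sum_congr rfl
  intro m _
  rw [Polynomial.coeff_map, mul_comm]
  rfl

/-- the coefficients of `p` are homogeneous of degrees `a`, `a - 1`, ..., `0` -/
private def HH (a : ℕ) (p : Polynomial (MvPolynomial ι K)) : Prop :=
  ∀ m, (m ≤ a → (p.coeff m).IsHomogeneous (a - m)) ∧ (a < m → p.coeff m = 0)

private theorem HH.mul {a b : ℕ} {p q : Polynomial (MvPolynomial ι K)} (hp : HH a p)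
    (hq : HH b q) : HH (a + b) (p * q) := by
  intro m
  constructor
  · intro hm
    rw [Polynomial.coeff_mul]
    apply MvPolynomial.IsHomogeneous.sum
    rintro ⟨i, j⟩ hij
    rw [Finset.HasAntidiagonal.mem_antidiagonal] at hij
    simp only at hij ⊢
    by_cases hi : i ≤ a
    · by_cases hj : j ≤ b
      · have h1 := ((hp i).1 hi).mul ((hq j).1 hj)
        have h2 : a - i + (b - j) = a + b - m := by omega
        rwa [h2] at h1
      · rw [(hq j).2 (not_le.mp hj), mul_zero]
        exact MvPolynomial.isHomogeneous_zero _ _ _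
    · rw [(hp i).2 (not_le.mp hi), zero_mul]
      exact MvPolynomial.isHomogeneous_zero _ _ _
  · intro hm
    rw [Polynomial.coeff_mul]
    apply Finset.sum_eq_zero
    rintro ⟨i, j⟩ hij
    rw [Finset.HasAntidiagonal.mem_antidiagonal] at hij
    simp only at hij ⊢
    by_cases hi : i ≤ a
    · have hj : b < j := by omega
      rw [(hq j).2 hj, mul_zero]
    · rw [(hp i).2 (not_le.mp hi), zero_mul]

private theorem HH.add {a : ℕ} {p q : Polynomial (MvPolynomial ι K)} (hp : HH a p)
    (hq : HH a q) : HH a (p + q) := by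
  intro m
  constructor
  · intro hm
    rw [Polynomial.coeff_add]
    exact ((hp m).1 hm).add ((hq m).1 hm)
  · intro hm
    rw [Polynomial.coeff_add, (hp m).2 hm, (hq m).2 hm, add_zero]

private theorem HH.zero (a : ℕ) : HH a (0 : Polynomial (MvPolynomial ι K)) := by
  intro m
  constructor
  · intro _
    rw [Polynomial.coeff_zero]
    exact MvPolynomial.isHomogeneous_zero _ _ _
  · intro _
    rw [Polynomial.coeff_zero]

private theorem HH.sum {α : Type*} {a : ℕ} (s : Finset α) (p : α → Polynomial (MvPolynomial ι K))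
    (hp : ∀ x ∈ s, HH a (p x)) : HH a (∑ x ∈ s, p x) := by
  classical
  induction s using Finset.induction_on with
  | empty =>
    rw [Finset.sum_empty]
    exact HH.zero a
  | insert x s hx ih =>
    rw [Finset.sum_insert hx]
    exact (hp x (Finset.mem_insert_self _ _)).add
      (ih fun y hy => hp y (Finset.mem_insert_of_mem hy))

private theorem HH.const (c : K) : HH 0 (Polynomial.C (C c) : Polynomial (MvPolynomial ι K)) := by
  intro m
  constructor
  · intro hm
    have h : m = 0 := by omega
    subst h
    rw [Polynomial.coeff_C_zero]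
    exact MvPolynomial.isHomogeneous_C _ _
  · intro hm
    rw [Polynomial.coeff_C_of_ne_zero (by omega)]

private theorem HH.var (ξ : ι → K) (v : ι) : HH 1 (shiftHom ξ (X v)) := by
  intro m
  rw [shiftHom_X, Polynomial.coeff_add, Polynomial.coeff_C_mul, Polynomial.coeff_X,
    Polynomial.coeff_C]
  constructor
  · intro hm
    rcases Nat.eq_zero_or_pos m with h | h
    · subst h
      simpa using MvPolynomial.isHomogeneous_X K v
    · have h1 : m = 1 := by omega
      subst h1
      simpa using MvPolynomial.isHomogeneous_C ι (ξ v)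
  · intro hm
    have h1 : m ≠ 0 := by omega
    have h2 : 1 ≠ m := by omega
    simp [h1, h2]

private theorem HH.pow {a : ℕ} {p : Polynomial (MvPolynomial ι K)} (hp : HH a p) (k : ℕ) :
    HH (k * a) (p ^ k) := by
  induction k with
  | zero =>
    have := HH.const (ι := ι) (1 : K)
    simpa using this
  | succ k ih =>
    rw [pow_succ, Nat.succ_mul]
    exact ih.mul hp

private theorem HH.prod {α : Type*} (s : Finset α) (a : α → ℕ)
    (p : α → Polynomial (MvPolynomial ι K)) (hp : ∀ x ∈ s, HH (a x) (p x)) :
    HH (∑ x ∈ s, a x) (∏ x ∈ s, p x) := by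
  classical
  induction s using Finset.induction_on with
  | empty =>
    have := HH.const (ι := ι) (1 : K)
    simpa using this
  | insert x s hx ih =>
    rw [Finset.sum_insert hx, Finset.prod_insert hx]
    exact (hp x (Finset.mem_insert_self _ _)).mul
      (ih fun y hy => hp y (Finset.mem_insert_of_mem hy))

private theorem HH.shift (ξ : ι → K) {f : MvPolynomial ι K} {n : ℕ} (hf : f.IsHomogeneous n) :
    HH n (shiftHom ξ f) := by
  rw [f.as_sum, map_sum]
  apply HH.sum
  intro s hs
  have hdeg : s.degree = n := by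
    by_contra h
    exact (MvPolynomial.mem_support_iff.mp hs) (hf.coeff_eq_zero h)
  rw [MvPolynomial.monomial_eq, map_mul, Finsupp.prod, map_prod]
  have h1 : shiftHom ξ (C (coeff s f) : MvPolynomial ι K) = Polynomial.C (C (coeff s f)) := by
    unfold shiftHom
    rw [MvPolynomial.aeval_C, Polynomial.algebraMap_apply, MvPolynomial.algebraMap_eq]
  have h2 : HH (∑ v ∈ s.support, s v) (∏ v ∈ s.support, shiftHom ξ (X v ^ s v)) := by
    apply HH.prod
    intro v _
    rw [map_pow]
    have := (HH.var ξ v).pow (s v)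
    rwa [mul_one] at this
  have h3 := (HH.const (ι := ι) (coeff s f)).mul h2
  rw [zero_add] at h3
  rw [h1]
  have h4 : ∑ v ∈ s.support, s v = n := hdeg
  rwa [h4] at h3

/-- the coefficient of `t ^ m` of a homogeneous polynomial is homogeneous -/
theorem shiftCoeff_homogeneous (ξ : ι → K) {f : MvPolynomial ι K} {n : ℕ}
    (hf : f.IsHomogeneous n) (m : ℕ) (hm : m ≤ n) :
    (shiftCoeff ξ f m).IsHomogeneous (n - m) :=
  (HH.shift ξ hf m).1 hm

theorem shiftCoeff_eq_zero (ξ : ι → K) {f : MvPolynomial ι K} {n : ℕ}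
    (hf : f.IsHomogeneous n) (m : ℕ) (hm : n < m) : shiftCoeff ξ f m = 0 :=
  (HH.shift ξ hf m).2 hm

theorem shiftCoeff_zero (ξ : ι → K) (f : MvPolynomial ι K) : shiftCoeff ξ f 0 = f := by
  induction f using MvPolynomial.induction_on with
  | C a => rw [shiftCoeff_C, if_pos rfl]
  | add f g hf hg => rw [shiftCoeff_add, hf, hg]
  | mul_X f n hf => rw [shiftCoeff_mul_X_zero, hf]

/-- the top coefficient is the value at `ξ` -/
theorem shiftCoeff_top (ξ : ι → K) {f : MvPolynomial ι K} {n : ℕ} (hf : f.IsHomogeneous n) :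
    shiftCoeff ξ f n = C (eval ξ f) := by
  have h1 := eval_shift ξ f 0 1 (n + 1) (fun m hm => shiftCoeff_eq_zero ξ hf m (by omega))
  have h2 : ∀ m ∈ Finset.range n, (1 : K) ^ m * eval (0 : ι → K) (shiftCoeff ξ f m) = 0 := by
    intro m hm
    rw [Finset.mem_range] at hm
    have h3 := shiftCoeff_homogeneous ξ hf m hm.le
    have h4 : eval (0 : ι → K) (shiftCoeff ξ f m) = coeff 0 (shiftCoeff ξ f m) := by
      rw [MvPolynomial.eval_zero, MvPolynomial.constantCoeff_eq]
    rw [h4, h3.coeff_eq_zero, mul_zero]
    rw [map_zero]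
    omega
  rw [Finset.sum_range_succ, Finset.sum_eq_zero h2, zero_add, one_smul, zero_add, one_pow,
    one_mul] at h1
  have h5 := shiftCoeff_homogeneous ξ hf n le_rfl
  rw [Nat.sub_self] at h5
  have h6 : shiftCoeff ξ f n = C (coeff 0 (shiftCoeff ξ f n)) := by
    rw [← MvPolynomial.totalDegree_eq_zero_iff_eq_C]
    have := h5.totalDegree_le
    omega
  rw [h1, MvPolynomial.eval_zero, MvPolynomial.constantCoeff_eq]
  exact h6

end Pool.Agent.helper90.QM
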