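import Pool.Agent.helper90.QM.Gens
import Pool.Agent.helper90.QM.RegIndep
import Pool.Agent.helper90.QM.Line
import Pool.Agent.helper90.QM.Pencil
import Pool.Agent.helper90.QM.Jacobian
import Pool.Agent.helper90.QM.Shift

/-!
# The machine: generators of the invariants and independence of their shifts

Proof of `shift_indep`: `x` from `exists_line`, `v i m = gradAt (shiftCoeff ξ (F i) m) x` for
`m < d i` and `0` for `m ≥ d i`; `A = evalMat P x`, `B = evalMat P ξ`; since
`∑ v, P u v (x + L ξ) * ∂_v (F i) (x + L ξ) = 0` for all `L`, comparing coefficients gives the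
hypotheses of `pencil_indep`; the top vectors are `gradAt (F i) ξ` (`shiftCoeff_top`), independent
by `reg_indep`.  Conclude by `algebraicIndependent_of_grad`.
-/

set_option autoImplicit false

namespace Pool.Agent.helper90.QM

open MvPolynomial Matrix

set_option linter.unusedSectionVars false

variable {K : Type*} [Field K] {ι I : Type*} [Fintype I] [DecidableEq I] [Fintype ι]
  [DecidableEq ι]

private theorem main_shiftHom_lin (ξ : ι → K) {f : MvPolynomial ι K} (hf : f.IsHomogeneous 1) :
    shiftHom ξ f = Polynomial.C f + Polynomial.C (C (eval ξ f)) * Polynomial.X := by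
  ext1 m
  rcases m with _ | _ | m
  · have h := shiftCoeff_zero ξ f
    rw [shiftCoeff] at h
    rw [h]
    simp
  · have h := shiftCoeff_top ξ hf
    rw [shiftCoeff] at h
    rw [h]
    simp [Polynomial.coeff_C]
  · have h := shiftCoeff_eq_zero ξ hf (m + 1 + 1) (by omega)
    rw [shiftCoeff] at h
    rw [h]
    simp

private theorem main_rel {P : Matrix ι ι (MvPolynomial ι K)}
    (hlin : ∀ u v, (P u v).IsHomogeneous 1) {f : MvPolynomial ι K} (hf : IsInv P f)
    (ξ x : ι → K) (m : ℕ) :
    (evalMat P x).mulVec (gradAt (shiftCoeff ξ f (m + 1)) x) =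
      - (evalMat P ξ).mulVec (gradAt (shiftCoeff ξ f m) x) := by
  ext u
  have h := congrArg (fun g => (shiftHom ξ g).coeff (m + 1)) (hf u)
  simp only [map_sum, map_mul, map_zero, Polynomial.coeff_zero, Polynomial.finsetSum_coeff] at h
  have h2 : ∀ v, (shiftHom ξ (P u v) * shiftHom ξ (pderiv v f)).coeff (m + 1) =
      P u v * pderiv v (shiftCoeff ξ f (m + 1)) +
        C (eval ξ (P u v)) * pderiv v (shiftCoeff ξ f m) := by
    intro v
    rw [main_shiftHom_lin ξ (hlin u v), add_mul, Polynomial.coeff_add, Polynomial.coeff_C_mul,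
      mul_assoc, Polynomial.coeff_C_mul, mul_comm Polynomial.X, Polynomial.coeff_mul_X,
      pderiv_shiftCoeff, pderiv_shiftCoeff, shiftCoeff, shiftCoeff]
  rw [Finset.sum_congr rfl fun v _ => h2 v] at h
  have h3 := congrArg (eval x) h
  rw [map_sum, map_zero] at h3
  simp only [map_add, map_mul, eval_C, Finset.sum_add_distrib] at h3
  rw [Pi.neg_apply, eq_neg_iff_add_eq_zero, ← h3]
  simp only [mulVec, dotProduct, evalMat, Matrix.map_apply, gradAt]

private theorem main_zero {P : Matrix ι ι (MvPolynomial ι K)} {f : MvPolynomial ι K}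
    (hf : IsInv P f) (ξ x : ι → K) :
    (evalMat P x).mulVec (gradAt (shiftCoeff ξ f 0) x) = 0 := by
  ext u
  have h := congrArg (eval x) (hf u)
  rw [map_sum, map_zero] at h
  simp only [map_mul] at h
  rw [shiftCoeff_zero, Pi.zero_apply, ← h]
  simp only [mulVec, dotProduct, evalMat, Matrix.map_apply, gradAt]

private theorem main_vanish (ξ x : ι → K) {f : MvPolynomial ι K} {n : ℕ} (hf : f.IsHomogeneous n)
    (m : ℕ) (hm : n ≤ m) : gradAt (shiftCoeff ξ f m) x = 0 := by
  ext v
  rcases Nat.eq_or_lt_of_le hm with h | h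
  · subst h
    rw [shiftCoeff_top ξ hf, gradAt, pderiv_C, map_zero, Pi.zero_apply]
  · rw [shiftCoeff_eq_zero ξ hf m h, gradAt, map_zero, map_zero, Pi.zero_apply]

private theorem main_top (ξ x : ι → K) {f : MvPolynomial ι K} {n : ℕ} (hf : f.IsHomogeneous n) :
    gradAt (shiftCoeff ξ f (n - 1)) x = gradAt f ξ := by
  ext v
  rw [gradAt, pderiv_shiftCoeff, shiftCoeff_top ξ hf.pderiv, eval_C, gradAt]

private theorem main_grad (ξ x : ι → K) {f : MvPolynomial ι K} {n : ℕ} (hf : f.IsHomogeneous n)
    (hn : 1 ≤ n) (L : K) :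
    gradAt f (x + L • ξ) = ∑ m ∈ Finset.range n, L ^ m • gradAt (shiftCoeff ξ f m) x := by
  ext v
  rw [gradAt, eval_shift ξ (pderiv v f) x L n
    (fun m hm => shiftCoeff_eq_zero ξ hf.pderiv m (by omega)), Finset.sum_apply]
  refine Finset.sum_congr rfl fun m _ => ?_
  rw [Pi.smul_apply, gradAt, pderiv_shiftCoeff, smul_eq_mul]

theorem shift_indep [IsAlgClosed K] [CharZero K] {P : Matrix ι ι (MvPolynomial ι K)}
    {F : I → MvPolynomial ι K} {d : I → ℕ} {p q : ι → K} (h : Good P F d p q) {ξ : ι → K}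
    (hξ : Reg P (Fintype.card I) ξ) :
    AlgebraicIndependent K fun j : Σ i, Fin (d i) => shiftCoeff ξ (F j.1) j.2 := by
  obtain ⟨x, hx⟩ := exists_line h ξ
  refine algebraicIndependent_of_grad _ x ?_
  refine pencil_indep (evalMat P x) (evalMat P ξ) d h.pos
    (fun i m => gradAt (shiftCoeff ξ (F i) m) x) (fun i m hm => main_vanish ξ x (h.hom i) m hm)
    (fun i => main_zero (h.inv i) ξ x) (fun i m => main_rel h.lin (h.inv i) ξ x m) ?_ hξ ?_
  · have := reg_indep h hξ
    have h2 : (fun i => gradAt (shiftCoeff ξ (F i) (d i - 1)) x) = fun i => gradAt (F i) ξ := by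
      ext1 i
      exact main_top ξ x (h.hom i)
    rw [h2]
    exact this
  · intro L
    have h2 : (fun i => ∑ m ∈ Finset.range (d i), L ^ m • gradAt (shiftCoeff ξ (F i) m) x) =
        fun i => gradAt (F i) (x + L • ξ) := by
      ext1 i
      exact (main_grad ξ x (h.hom i) (h.pos i) L).symm
    rw [h2]
    exact hx L

end Pool.Agent.helper90.QM
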