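import Pool.Agent.helper90.QM.NoCommon

/-!
# The gradient of an invariant is a polynomial combination of the `grad F i`

Proof of `exists_combo`: take `T, r` from `exists_border` for `evalMat P x0`, put
`δ = (border P T r).det` (polynomial, `eval x0 δ ≠ 0`, so `δ ≠ 0`), `C = borderC P T r`.  By
`border_ker`: `δ * ∂_v f = ∑ i, C v i * ∂_{T i} f` for every invariant `f`.  So
`δ ^ card I * minor F S = det (C_S) * minor F T` (`minor_border`), hence `minor F T ≠ 0`.  Let
`J_S` be the matrix of `minor F S`, `g = grad f`, `α = adj (J_T) g_T`; then `J_T α = m_T g_T`,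
`δ m_T g_v = m_T (C g_T)_v = (C J_T α)_v = δ (J α)_v`, so `m_T g_v = ∑ i, ∂_v (F i) * α i` for all
`v`.  Multiply the equations `v = S i` by `adj (J_S)`: `m_S α = m_T adj (J_S) g_S`, so
`m_T ∣ m_S * α i` for all `S`.  With `UniqueFactorizationMonoid.exists_reduced_factors` (or a gcd)
and `isUnit_of_dvd_minor`: `m_T ∣ α i`.  Divide.
-/

set_option autoImplicit false

namespace Pool.Agent.helper90.QM

open MvPolynomial Matrix

variable {K : Type*} [Field K] {ι I : Type*} [Fintype I] [DecidableEq I] [Fintype ι]
  [DecidableEq ι]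

private theorem Combo_smul {P : Matrix ι ι (MvPolynomial ι K)} {f : MvPolynomial ι K}
    (hf : IsInv P f) (T : I → ι) (r : ι → ι ⊕ I) (v : ι) :
    (border P T r).det * pderiv v f = ∑ i, borderC P T r v i * pderiv (T i) f :=
  border_ker P T r (fun v => pderiv v f) hf v

theorem minor_border {P : Matrix ι ι (MvPolynomial ι K)} {F : I → MvPolynomial ι K}
    (hF : ∀ i, IsInv P (F i)) (T : I → ι) (r : ι → ι ⊕ I) (S : I → ι) :
    (border P T r).det ^ Fintype.card I * minor F S =
      ((borderC P T r).submatrix S id).det * minor F T := by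
  unfold minor
  rw [← Matrix.det_mul, ← Matrix.det_smul]
  congr 1
  ext i j : 2
  rw [Matrix.smul_apply, Matrix.mul_apply, Matrix.of_apply, smul_eq_mul,
    Combo_smul (hF j) T r (S i)]
  rfl

private theorem Combo_dvd {R X : Type*} [CommRing R] [IsDomain R] [UniqueFactorizationMonoid R]
    (mn : X → R) (hu : ∀ g : R, (∀ S, g ∣ mn S) → IsUnit g) {m a : R} (hm : m ≠ 0)
    (h : ∀ S, m ∣ mn S * a) : m ∣ a := by
  obtain ⟨m', a', c, hrel, hcm, hca⟩ := UniqueFactorizationMonoid.exists_reduced_factors m hm a
  have hc : c ≠ 0 := by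
    rintro rfl
    exact hm (by rw [← hcm, zero_mul])
  have hm' : IsUnit m' := by
    apply hu
    intro S
    have h1 := h S
    rw [← hcm, ← hca] at h1
    have h2 : c * m' ∣ c * (mn S * a') := by
      have e : mn S * (c * a') = c * (mn S * a') := by ring
      rwa [e] at h1
    have h3 : m' ∣ mn S * a' := (mul_dvd_mul_iff_left hc).1 h2
    exact hrel.dvd_of_dvd_mul_right h3
  rw [← hcm, ← hca]
  exact mul_dvd_mul_left c (hm'.dvd)

theorem exists_combo [IsAlgClosed K] {P : Matrix ι ι (MvPolynomial ι K)}
    {F : I → MvPolynomial ι K} {d : I → ℕ} {p q : ι → K} (h : Good P F d p q) {x0 : ι → K}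
    (h0 : Reg P (Fintype.card I) x0) {f : MvPolynomial ι K} (hf : IsInv P f) :
    ∃ a : I → MvPolynomial ι K, ∀ v, pderiv v f = ∑ i, a i * pderiv v (F i) := by
  obtain ⟨S0, hS0⟩ := exists_minor_ne (fun i => gradAt (F i) ((1 : K) • p + (0 : K) • q))
    (h.pencil 1 0 (by simp))
  obtain ⟨T, r, hdet⟩ := exists_border (I := I) (evalMat P x0) h0 ⟨S0⟩
  have hδ : (border P T r).det ≠ 0 := by
    intro h1
    apply hdet
    have h2 : (border (evalMat P x0) T r) = (border P T r).map (eval x0) := by
      ext v w
      rw [Matrix.map_apply]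
      unfold border evalMat
      rw [Matrix.of_apply, Matrix.of_apply]
      rcases r v with u | i
      · simp
      · by_cases hw : w = T i
        · simp [hw]
        · simp [hw]
    have h3 := RingHom.map_det (eval x0) (border P T r)
    rw [h2, ← RingHom.mapMatrix_apply, ← h3, h1, map_zero]
  have hS0' : minor F S0 ≠ 0 := by
    intro h1
    apply hS0
    rw [← eval_minor, h1, map_zero]
  have hmT : minor F T ≠ 0 := by
    intro h1
    have h2 := minor_border h.inv T r S0
    rw [h1, mul_zero] at h2
    exact hS0' ((mul_eq_zero.1 h2).resolve_left (pow_ne_zero _ hδ))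
  -- the solution of the system
  obtain ⟨α, hα⟩ : ∃ α : I → MvPolynomial ι K,
      α = (Matrix.of fun i j : I => pderiv (T i) (F j)).adjugate *ᵥ fun i => pderiv (T i) f :=
    ⟨_, rfl⟩
  have hTα : ∀ i, ∑ j, pderiv (T i) (F j) * α j = minor F T * pderiv (T i) f := by
    intro i
    have h1 : (Matrix.of fun i j : I => pderiv (T i) (F j)) *ᵥ α =
        minor F T • fun i => pderiv (T i) f := by
      rw [hα, Matrix.mulVec_mulVec, Matrix.mul_adjugate, Matrix.smul_mulVec, Matrix.one_mulVec]
      rfl
    exact congrFun h1 i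
  have hall : ∀ v, minor F T * pderiv v f = ∑ j, pderiv v (F j) * α j := by
    intro v
    apply mul_left_cancel₀ hδ
    calc (border P T r).det * (minor F T * pderiv v f)
        = minor F T * ((border P T r).det * pderiv v f) := by ring
      _ = minor F T * ∑ i, borderC P T r v i * pderiv (T i) f := by rw [Combo_smul hf]
      _ = ∑ i, borderC P T r v i * (minor F T * pderiv (T i) f) := by
          rw [Finset.mul_sum]
          exact Finset.sum_congr rfl fun i _ => by ring
      _ = ∑ i, ∑ j, borderC P T r v i * (pderiv (T i) (F j) * α j) := by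
          refine Finset.sum_congr rfl fun i _ => ?_
          rw [← hTα i, Finset.mul_sum]
      _ = ∑ j, (∑ i, borderC P T r v i * pderiv (T i) (F j)) * α j := by
          rw [Finset.sum_comm]
          refine Finset.sum_congr rfl fun j _ => ?_
          rw [Finset.sum_mul]
          exact Finset.sum_congr rfl fun i _ => by ring
      _ = ∑ j, ((border P T r).det * pderiv v (F j)) * α j := by
          refine Finset.sum_congr rfl fun j _ => ?_
          rw [Combo_smul (h.inv j)]
      _ = (border P T r).det * ∑ j, pderiv v (F j) * α j := by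
          rw [Finset.mul_sum]
          exact Finset.sum_congr rfl fun j _ => by ring
  -- divisibility
  have hdvd : ∀ i, minor F T ∣ α i := by
    intro i
    refine Combo_dvd (fun S => minor F S) (isUnit_of_dvd_minor h) hmT fun S => ?_
    have h1 : (Matrix.of fun i j : I => pderiv (S i) (F j)) *ᵥ α =
        minor F T • fun i => pderiv (S i) f := by
      funext i
      exact (hall (S i)).symm
    have h2 : minor F S • α = minor F T •
        ((Matrix.of fun i j : I => pderiv (S i) (F j)).adjugate *ᵥ fun i => pderiv (S i) f) := by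
      rw [← Matrix.mulVec_smul, ← h1, Matrix.mulVec_mulVec, Matrix.adjugate_mul,
        Matrix.smul_mulVec, Matrix.one_mulVec]
      rfl
    have h3 := congrFun h2 i
    exact ⟨_, h3⟩
  choose a ha using hdvd
  refine ⟨a, fun v => ?_⟩
  apply mul_left_cancel₀ hmT
  rw [hall v, Finset.mul_sum]
  refine Finset.sum_congr rfl fun j _ => ?_
  rw [ha j]
  ring

end Pool.Agent.helper90.QM
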