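import Mathlib

/-!
# Invariants of a linear family of matrices: definitions

`K` is a field, `P` a matrix of linear forms in the variables `ι` (for a Lie algebra with basis
`e_v` the entry `P u v` is the linear form `[e_u, e_v]`), `F i` (`i : I`) are polynomials which are
killed by the derivations `∑ v, P u v ∂_v`.
-/

set_option autoImplicit false

namespace Pool.Agent.helper90.QM

open MvPolynomial

variable {K : Type*} [Field K] {ι I : Type*}

/-- the gradient of `f` at the point `x` -/
noncomputable def gradAt (f : MvPolynomial ι K) (x : ι → K) : ι → K :=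
  fun v => eval x (pderiv v f)

/-- the minor of the Jacobian matrix with the rows `S` -/
noncomputable def minor [Fintype I] [DecidableEq I] (F : I → MvPolynomial ι K) (S : I → ι) :
    MvPolynomial ι K :=
  (Matrix.of fun i j : I => pderiv (S i) (F j)).det

/-- the value of a matrix of polynomials at a point -/
noncomputable def evalMat (P : Matrix ι ι (MvPolynomial ι K)) (x : ι → K) : Matrix ι ι K :=
  P.map (eval x)

/-- `f` is killed by all the derivations `∑ v, P u v ∂_v` -/
def IsInv [Fintype ι] (P : Matrix ι ι (MvPolynomial ι K)) (f : MvPolynomial ι K) : Prop :=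
  ∀ u, ∑ v, P u v * pderiv v f = 0

/-- the kernel of `P` at the point `x` has dimension at most `l` -/
def Reg [Fintype ι] (P : Matrix ι ι (MvPolynomial ι K)) (l : ℕ) (x : ι → K) : Prop :=
  Module.finrank K (LinearMap.ker (evalMat P x).mulVecLin) ≤ l

/-- the standing hypotheses: `P` linear, `F i` homogeneous of degree `d i ≥ 1` and invariant, the
gradients of the `F i` are independent at all the points of the plane spanned by `p`, `q` which
are different from the origin -/
structure Good [Fintype ι] (P : Matrix ι ι (MvPolynomial ι K)) (F : I → MvPolynomial ι K)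
    (d : I → ℕ) (p q : ι → K) : Prop where
  lin : ∀ u v, (P u v).IsHomogeneous 1
  hom : ∀ i, (F i).IsHomogeneous (d i)
  pos : ∀ i, 1 ≤ d i
  inv : ∀ i, IsInv P (F i)
  pencil : ∀ s t : K, ¬ (s = 0 ∧ t = 0) →
    LinearIndependent K fun i => gradAt (F i) (s • p + t • q)

/-- the substitution `x ↦ x + t ξ` -/
noncomputable def shiftHom (ξ : ι → K) :
    MvPolynomial ι K →ₐ[K] Polynomial (MvPolynomial ι K) :=
  aeval fun v => Polynomial.C (X v) + Polynomial.C (C (ξ v)) * Polynomial.X

/-- the coefficient of `t ^ m` in `f (x + t ξ)` -/
noncomputable def shiftCoeff (ξ : ι → K) (f : MvPolynomial ι K) (m : ℕ) : MvPolynomial ι K :=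
  (shiftHom ξ f).coeff m

end Pool.Agent.helper90.QM
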