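import Pool.Agent.helper90.QM.Combo

/-!
# The invariants are generated by the `F i`

Proof of `mem_adjoin`.  The homogeneous components of an invariant are invariant (the entries of
`P` are homogeneous of degree one).  So let `f` be homogeneous of degree `e`, and use strong
induction on `e`; `e = 0` is clear (constants).  For `e ≥ 1` write `∂_v f = ∑ i, a i * ∂_v (F i)`
(`exists_combo`); taking the components of degree `e - 1` we may take `a i` homogeneous of degree
`e - d i` (and `a i = 0` if `d i > e`).  Since `∂_u ∂_v f` is symmetric,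
`∑ i, (∂_u (a i) * ∂_v (F i) - ∂_v (a i) * ∂_u (F i)) = 0`; multiply with `P w v` and sum over `v`:
`∑ i, (∑ v, P w v * ∂_v (a i)) * ∂_u (F i) = 0` for all `u, w`; some minor of `F` is nonzero, so
`a i` is invariant.  Euler: `e f = ∑ v, X v ∂_v f = ∑ i, a i * d i * F i`
(`MvPolynomial.IsHomogeneous.sum_X_mul_pderiv` or similar, Mathlib/RingTheory/MvPolynomial/
EulerIdentity.lean), and the `a i` are in the algebra by induction.
-/

set_option autoImplicit false

namespace Pool.Agent.helper90.QM

open MvPolynomial Matrix

variable {K : Type*} [Field K] {ι I : Type*} [Fintype I] [DecidableEq I] [Fintype ι]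
  [DecidableEq ι]

omit [Fintype I] [DecidableEq I] [Fintype ι] [DecidableEq ι] in
/-- the components of a product with a homogeneous polynomial -/
theorem Gens_component_mul (a g : MvPolynomial ι K) (m n : ℕ) (hg : g.IsHomogeneous m) :
    homogeneousComponent n (a * g) =
      if m ≤ n then homogeneousComponent (n - m) a * g else 0 := by
  have h0 : a * g = ∑ k ∈ Finset.range (a.totalDegree + 1), homogeneousComponent k a * g := by
    rw [← Finset.sum_mul, sum_homogeneousComponent]
  have h1 : ∀ k, homogeneousComponent n (homogeneousComponent k a * g) =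
      if n = k + m then homogeneousComponent k a * g else 0 := fun k =>
    homogeneousComponent_of_mem ((homogeneousComponent_isHomogeneous k a).mul hg)
  rw [h0, map_sum, Finset.sum_congr rfl fun k _ => h1 k]
  split_ifs with hmn
  · rw [Finset.sum_eq_single (n - m)]
    · rw [if_pos (by omega)]
    · intro k _ hk
      rw [if_neg (by omega)]
    · intro hk
      rw [if_pos (by omega), homogeneousComponent_eq_zero, zero_mul]
      rw [Finset.mem_range] at hk
      omega
  · exact Finset.sum_eq_zero fun k _ => if_neg (by omega)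

/-- the derivation `∑ v, P u v ∂_v` as a linear map -/
noncomputable def Gens_L (P : Matrix ι ι (MvPolynomial ι K)) (u : ι) :
    MvPolynomial ι K →ₗ[K] MvPolynomial ι K :=
  ∑ v, (LinearMap.mulLeft K (P u v)) ∘ₗ (pderiv v).toLinearMap

omit [DecidableEq ι] in
theorem Gens_L_apply (P : Matrix ι ι (MvPolynomial ι K)) (u : ι) (g : MvPolynomial ι K) :
    Gens_L P u g = ∑ v, P u v * pderiv v g := by
  unfold Gens_L
  rw [LinearMap.sum_apply]
  rfl

omit [DecidableEq ι] in
theorem Gens_L_hom {P : Matrix ι ι (MvPolynomial ι K)} (hP : ∀ u v, (P u v).IsHomogeneous 1)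
    (u : ι) {g : MvPolynomial ι K} {k : ℕ} (hg : g.IsHomogeneous k) :
    (Gens_L P u g).IsHomogeneous k := by
  rw [Gens_L_apply]
  cases k with
  | zero =>
    rw [← totalDegree_zero_iff_isHomogeneous, totalDegree_eq_zero_iff_eq_C] at hg
    rw [hg, Finset.sum_eq_zero fun v _ => by rw [pderiv_C, mul_zero]]
    exact isHomogeneous_zero _ _ _
  | succ k =>
    refine IsHomogeneous.sum _ _ _ fun v _ => ?_
    have h := (hP u v).mul (hg.pderiv (i := v))
    have h2 : 1 + (k + 1 - 1) = k + 1 := by omega
    rw [h2] at h
    exact h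

omit [DecidableEq ι] in
theorem Gens_L_component {P : Matrix ι ι (MvPolynomial ι K)}
    (hP : ∀ u v, (P u v).IsHomogeneous 1) (u : ι) (g : MvPolynomial ι K) (n : ℕ) :
    homogeneousComponent n (Gens_L P u g) = Gens_L P u (homogeneousComponent n g) := by
  have h0 : Gens_L P u g =
      ∑ k ∈ Finset.range (g.totalDegree + 1), Gens_L P u (homogeneousComponent k g) := by
    rw [← map_sum, sum_homogeneousComponent]
  have h1 : ∀ k, homogeneousComponent n (Gens_L P u (homogeneousComponent k g)) =
      if n = k then Gens_L P u (homogeneousComponent k g) else 0 := fun k =>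
    homogeneousComponent_of_mem (Gens_L_hom hP u (homogeneousComponent_isHomogeneous k g))
  rw [h0, map_sum, Finset.sum_congr rfl fun k _ => h1 k, Finset.sum_ite_eq]
  split_ifs with hn
  · rfl
  · rw [homogeneousComponent_eq_zero, map_zero]
    rw [Finset.mem_range] at hn
    omega

theorem isInv_component {P : Matrix ι ι (MvPolynomial ι K)}
    (hP : ∀ u v, (P u v).IsHomogeneous 1) {f : MvPolynomial ι K} (hf : IsInv P f) (n : ℕ) :
    IsInv P (homogeneousComponent n f) := by
  intro u
  rw [← Gens_L_apply, ← Gens_L_component hP, Gens_L_apply, hf u, map_zero]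

omit [Fintype I] [DecidableEq I] [Fintype ι] in
theorem Gens_pderiv_comm (u v : ι) (f : MvPolynomial ι K) :
    pderiv u (pderiv v f) = pderiv v (pderiv u f) := by
  have h : ⁅(pderiv u : Derivation K (MvPolynomial ι K) (MvPolynomial ι K)),
      (pderiv v : Derivation K (MvPolynomial ι K) (MvPolynomial ι K))⁆ = 0 := by
    apply MvPolynomial.derivation_ext
    intro i
    rw [Derivation.commutator_apply, pderiv_X, pderiv_X, Derivation.zero_apply]
    rw [Pi.single_apply, Pi.single_apply]
    split_ifs <;> simp
  have h2 := congrArg (fun D => D f) h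
  simp only [Derivation.commutator_apply, Derivation.zero_apply] at h2
  exact sub_eq_zero.1 h2

/-- a nonvanishing minor of the Jacobian matrix -/
theorem Gens_minor {P : Matrix ι ι (MvPolynomial ι K)}
    {F : I → MvPolynomial ι K} {d : I → ℕ} {p q : ι → K} (h : Good P F d p q) :
    ∃ S : I → ι, (Matrix.of fun i j : I => pderiv (S i) (F j)).det ≠ 0 := by
  have h1 := h.pencil 1 0 (by simp)
  obtain ⟨S, hS⟩ := exists_minor_ne _ h1
  refine ⟨S, fun h0 => hS ?_⟩
  have h2 := congrArg (eval ((1 : K) • p + (0 : K) • q)) h0
  rw [RingHom.map_det, map_zero] at h2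
  exact h2

/-- a combination of the `grad F i` which vanishes is trivial -/
theorem Gens_unique {P : Matrix ι ι (MvPolynomial ι K)}
    {F : I → MvPolynomial ι K} {d : I → ℕ} {p q : ι → K} (h : Good P F d p q)
    (b : I → MvPolynomial ι K) (hb : ∀ u, ∑ i, b i * pderiv u (F i) = 0) (i : I) : b i = 0 := by
  obtain ⟨S, hS⟩ := Gens_minor h
  have h1 : (Matrix.of fun i j : I => pderiv (S i) (F j)) *ᵥ b = 0 := by
    funext k
    rw [Matrix.mulVec, dotProduct, Pi.zero_apply, ← hb (S k)]
    exact Finset.sum_congr rfl fun j _ => mul_comm _ _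
  exact congrFun (Matrix.eq_zero_of_mulVec_eq_zero hS h1) i

/-- the coefficients of `grad f` in terms of the `grad F i` are invariant -/
theorem Gens_coeff_inv {P : Matrix ι ι (MvPolynomial ι K)}
    {F : I → MvPolynomial ι K} {d : I → ℕ} {p q : ι → K} (h : Good P F d p q)
    {f : MvPolynomial ι K} (a : I → MvPolynomial ι K)
    (ha : ∀ v, pderiv v f = ∑ i, a i * pderiv v (F i)) (i : I) : IsInv P (a i) := by
  intro w
  refine Gens_unique h (fun i => ∑ v, P w v * pderiv v (a i)) ?_ i
  intro u
  have h1 : ∀ v, ∑ i, (pderiv u (a i) * pderiv v (F i) - pderiv v (a i) * pderiv u (F i)) = 0 := by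
    intro v
    have h2 := Gens_pderiv_comm u v f
    rw [ha v, ha u, map_sum, map_sum] at h2
    rw [← sub_eq_zero, ← Finset.sum_sub_distrib] at h2
    rw [← h2]
    refine Finset.sum_congr rfl fun i _ => ?_
    rw [Derivation.leibniz, Derivation.leibniz, Gens_pderiv_comm v u (F i)]
    simp only [smul_eq_mul]
    ring
  have h3 : ∑ v, P w v * ∑ i, (pderiv u (a i) * pderiv v (F i) -
      pderiv v (a i) * pderiv u (F i)) = 0 :=
    Finset.sum_eq_zero fun v _ => by rw [h1 v, mul_zero]
  have h4 : ∀ i, ∑ v, P w v * (pderiv u (a i) * pderiv v (F i)) = 0 := by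
    intro i
    have h5 := h.inv i w
    calc ∑ v, P w v * (pderiv u (a i) * pderiv v (F i))
        = pderiv u (a i) * ∑ v, P w v * pderiv v (F i) := by
          rw [Finset.mul_sum]
          exact Finset.sum_congr rfl fun v _ => by ring
      _ = 0 := by rw [h5, mul_zero]
  have h6 : ∑ i, (∑ v, P w v * pderiv v (a i)) * pderiv u (F i) =
      ∑ i, ∑ v, P w v * (pderiv u (a i) * pderiv v (F i)) -
      ∑ v, P w v * ∑ i, (pderiv u (a i) * pderiv v (F i) -
        pderiv v (a i) * pderiv u (F i)) := by
    have h7 : ∑ v, P w v * ∑ i, (pderiv u (a i) * pderiv v (F i) -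
        pderiv v (a i) * pderiv u (F i)) = ∑ i, ∑ v, P w v * (pderiv u (a i) * pderiv v (F i) -
        pderiv v (a i) * pderiv u (F i)) := by
      rw [Finset.sum_comm]
      exact Finset.sum_congr rfl fun v _ => Finset.mul_sum _ _ _
    rw [h7, ← Finset.sum_sub_distrib]
    refine Finset.sum_congr rfl fun i _ => ?_
    rw [← Finset.sum_sub_distrib, Finset.sum_mul]
    exact Finset.sum_congr rfl fun v _ => by ring
  rw [h6, h3, Finset.sum_eq_zero fun i _ => h4 i, sub_zero]

theorem mem_adjoin [IsAlgClosed K] [CharZero K] {P : Matrix ι ι (MvPolynomial ι K)}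
    {F : I → MvPolynomial ι K} {d : I → ℕ} {p q : ι → K} (h : Good P F d p q) {x0 : ι → K}
    (h0 : Reg P (Fintype.card I) x0) {f : MvPolynomial ι K} (hf : IsInv P f) :
    f ∈ Algebra.adjoin K (Set.range F) := by
  have key : ∀ e : ℕ, ∀ g : MvPolynomial ι K, g.IsHomogeneous e → IsInv P g →
      g ∈ Algebra.adjoin K (Set.range F) := by
    intro e
    induction e using Nat.strong_induction_on with
    | _ e ih =>
      intro g hg hinv
      rcases Nat.eq_zero_or_pos e with he | he
      · rw [he, ← totalDegree_zero_iff_isHomogeneous, totalDegree_eq_zero_iff_eq_C] at hg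
        rw [hg]
        exact Subalgebra.algebraMap_mem _ _
      · obtain ⟨a', ha'⟩ := exists_combo h h0 hinv
        let a : I → MvPolynomial ι K := fun i =>
          if d i ≤ e then homogeneousComponent (e - d i) (a' i) else 0
        have ha : ∀ v, pderiv v g = ∑ i, a i * pderiv v (F i) := by
          intro v
          have h1 := homogeneousComponent_eq_self (hg.pderiv (i := v))
          rw [ha' v, map_sum] at h1
          rw [ha' v, ← h1]
          refine Finset.sum_congr rfl fun i _ => ?_
          rw [Gens_component_mul _ _ (d i - 1) _ (h.hom i).pderiv]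
          have h2 := h.pos i
          by_cases h3 : d i ≤ e
          · have h4 : e - 1 - (d i - 1) = e - d i := by omega
            simp only [a, if_pos h3, if_pos (show d i - 1 ≤ e - 1 by omega), h4]
          · simp only [a, if_neg h3, if_neg (show ¬ d i - 1 ≤ e - 1 by omega), zero_mul]
        have hainv := Gens_coeff_inv h a ha
        have hamem : ∀ i, a i ∈ Algebra.adjoin K (Set.range F) := by
          intro i
          have h2 := h.pos i
          by_cases h3 : d i ≤ e
          · refine ih (e - d i) (by omega) (a i) ?_ (hainv i)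
            simp only [a, if_pos h3]
            exact homogeneousComponent_isHomogeneous _ _
          · simp only [a, if_neg h3]
            exact Subalgebra.zero_mem _
        have heuler : (e : K) • g = ∑ i, a i * ((d i : K) • F i) := by
          have h1 := hg.sum_X_mul_pderiv
          rw [← Nat.cast_smul_eq_nsmul K] at h1
          rw [← h1, Finset.sum_congr rfl fun v _ => by rw [ha v, Finset.mul_sum],
            Finset.sum_comm]
          refine Finset.sum_congr rfl fun i _ => ?_
          rw [Nat.cast_smul_eq_nsmul K, ← (h.hom i).sum_X_mul_pderiv, Finset.mul_sum]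
          exact Finset.sum_congr rfl fun v _ => by ring
        have hmem : (e : K) • g ∈ Algebra.adjoin K (Set.range F) := by
          rw [heuler]
          refine Subalgebra.sum_mem _ fun i _ => Subalgebra.mul_mem _ (hamem i) ?_
          exact Subalgebra.smul_mem _ (Algebra.subset_adjoin (Set.mem_range_self i)) _
        have he' : (e : K) ≠ 0 := Nat.cast_ne_zero.2 he.ne'
        have h9 := Subalgebra.smul_mem _ hmem (e : K)⁻¹
        rw [smul_smul, inv_mul_cancel₀ he', one_smul] at h9
        exact h9
  rw [← sum_homogeneousComponent f]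
  exact Subalgebra.sum_mem _ fun k _ =>
    key k _ (homogeneousComponent_isHomogeneous k f) (isInv_component h.lin hf k)

end Pool.Agent.helper90.QM
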