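import Pool.Agent.helper90.QM.Defs

/-!
# Minors and linear independence

`exists_minor_ne`: a linearly independent family of vectors `v j : X → K` (`j : J`, both finite)
has a nonvanishing minor.  Proof: the matrix `A = (v j x)` has rank `card J`
(`LinearIndependent.rank_matrix`), so its columns `fun j => v j x` span `J → K`
(`Matrix.rank_eq_finrank_span_cols`), choose a basis among them (`exists_linearIndependent`,
`Basis`), index it by `J`.

`exists_border`: `W = ker A` has dimension `≤ card I`.  A basis of `W` has a nonvanishing minor, so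
there are `T : I → ι` with: `w ∈ W`, `w (T i) = 0` for all `i` implies `w = 0`.  The matrix with
the rows `A u` (`u : ι`) and the unit vectors `e_{T i}` (`i : I`) has independent columns, apply
`exists_minor_ne` to the columns (`J := ι`, `X := ι ⊕ I`).
-/

set_option autoImplicit false

namespace Pool.Agent.helper90.QM

open MvPolynomial Matrix

theorem exists_minor_ne {K : Type*} [Field K] {J X : Type*} [Fintype J] [DecidableEq J] [Fintype X]
    (v : J → X → K) (h : LinearIndependent K v) :
    ∃ S : J → X, (Matrix.of fun i j : J => v j (S i)).det ≠ 0 := by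
  obtain ⟨c, hc⟩ : ∃ c : X → J → K, c = fun x j => v j x := ⟨_, rfl⟩
  have hspan : Submodule.span K (Set.range c) = ⊤ := by
    by_contra hne
    obtain ⟨f, hf0, hf⟩ := Submodule.exists_le_ker_of_lt_top _ (lt_top_iff_ne_top.2 hne)
    apply hf0
    have h1 : ∀ g : J → K, f g = ∑ j, g j * f (Pi.single j 1) := by
      intro g
      conv_lhs => rw [pi_eq_sum_univ' g]
      rw [map_sum]
      apply Finset.sum_congr rfl
      intro j _
      rw [map_smul, smul_eq_mul]
    have h2 : ∑ j, f (Pi.single j 1) • v j = 0 := by
      ext x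
      have h3 : f (c x) = 0 := hf (Submodule.subset_span ⟨x, rfl⟩)
      rw [h1] at h3
      rw [Finset.sum_apply, Pi.zero_apply, ← h3]
      apply Finset.sum_congr rfl
      intro j _
      rw [Pi.smul_apply, smul_eq_mul, hc, mul_comm]
    have h4 := Fintype.linearIndependent_iff.1 h _ h2
    apply LinearMap.ext
    intro g
    rw [h1, LinearMap.zero_apply]
    apply Finset.sum_eq_zero
    intro j _
    rw [h4 j, mul_zero]
  obtain ⟨κ, a, ha, hsp, hli⟩ := exists_linearIndependent' K c
  rw [hspan] at hsp
  obtain ⟨B, hB⟩ : ∃ B : Module.Basis κ K (J → K), B = Module.Basis.mk hli hsp.ge := ⟨_, rfl⟩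
  have : Finite κ := Finite.of_injective a ha
  have := Fintype.ofFinite κ
  have hcard : Fintype.card J = Fintype.card κ := by
    rw [← Module.finrank_eq_card_basis B, Module.finrank_fintype_fun_eq_card]
  obtain ⟨e⟩ := Fintype.card_eq.1 hcard
  refine ⟨a ∘ e, ?_⟩
  have h5 : LinearIndependent K (Matrix.of fun i j : J => v j ((a ∘ e) i)).row := by
    have h6 := hli.comp e e.injective
    have h7 : (Matrix.of fun i j : J => v j ((a ∘ e) i)).row = (c ∘ a) ∘ e := by
      funext i j
      rw [hc]
      rfl
    rw [h7]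
    exact h6
  have h8 := Matrix.linearIndependent_rows_iff_isUnit.1 h5
  exact ((Matrix.isUnit_iff_isUnit_det _).1 h8).ne_zero

theorem indep_of_minor {K : Type*} [Field K] {J X : Type*} [Fintype J] [DecidableEq J]
    (v : J → X → K) (S : J → X) (h : (Matrix.of fun i j : J => v j (S i)).det ≠ 0) :
    LinearIndependent K v := by
  rw [Fintype.linearIndependent_iff]
  intro g hg
  have h1 : (Matrix.of fun i j : J => v j (S i)) *ᵥ g = 0 := by
    ext i
    have h2 := congrFun hg (S i)
    rw [Finset.sum_apply, Pi.zero_apply] at h2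
    rw [Pi.zero_apply, ← h2]
    simp only [Matrix.mulVec, dotProduct, Matrix.of_apply, Pi.smul_apply, smul_eq_mul]
    exact Finset.sum_congr rfl fun j _ => mul_comm _ _
  exact congrFun (Matrix.eq_zero_of_mulVec_eq_zero h h1)

/-- a square matrix whose rows are rows of `P` or unit vectors `e_{T i}` -/
def border {R : Type*} [CommRing R] {ι I : Type*} [DecidableEq ι] (P : Matrix ι ι R) (T : I → ι)
    (r : ι → ι ⊕ I) : Matrix ι ι R :=
  Matrix.of fun v w => Sum.elim (fun u => P u w) (fun i => if w = T i then 1 else 0) (r v)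

/-- the matrix which expresses a kernel vector by its coordinates `T i` -/
noncomputable def borderC {R : Type*} [CommRing R] {ι I : Type*} [Fintype ι] [DecidableEq ι]
    [DecidableEq I] (P : Matrix ι ι R) (T : I → ι) (r : ι → ι ⊕ I) : Matrix ι I R :=
  Matrix.of fun v i => ∑ v', (border P T r).adjugate v v' * if r v' = Sum.inr i then 1 else 0

theorem border_ker {R : Type*} [CommRing R] {ι I : Type*} [Fintype ι] [DecidableEq ι] [Fintype I]
    [DecidableEq I] (P : Matrix ι ι R) (T : I → ι) (r : ι → ι ⊕ I) (w : ι → R)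
    (hw : ∀ u, ∑ v, P u v * w v = 0) (v : ι) :
    (border P T r).det * w v = ∑ i, borderC P T r v i * w (T i) := by
  have h1 : ∀ v', (border P T r *ᵥ w) v' = ∑ i, (if r v' = Sum.inr i then 1 else 0) * w (T i) := by
    intro v'
    simp only [Matrix.mulVec, dotProduct, border, Matrix.of_apply]
    rcases r v' with u | i
    · simp only [Sum.elim_inl, hw u]
      simp
    · simp
  have h2 : (border P T r).adjugate *ᵥ (border P T r *ᵥ w) = (border P T r).det • w := by
    rw [Matrix.mulVec_mulVec, Matrix.adjugate_mul, Matrix.smul_mulVec, Matrix.one_mulVec]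
  have h3 := congrFun h2 v
  rw [Pi.smul_apply, smul_eq_mul] at h3
  rw [← h3]
  simp only [Matrix.mulVec, dotProduct, borderC, Matrix.of_apply] at h1 ⊢
  simp only [h1, Finset.mul_sum, Finset.sum_mul]
  rw [Finset.sum_comm]
  exact Finset.sum_congr rfl fun i _ => Finset.sum_congr rfl fun v' _ => by ring

theorem exists_border {K : Type*} [Field K] {ι I : Type*} [Fintype ι] [DecidableEq ι] [Fintype I]
    [DecidableEq I] (A : Matrix ι ι K)
    (hA : Module.finrank K (LinearMap.ker A.mulVecLin) ≤ Fintype.card I)
    (hI : Nonempty (I → ι)) :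
    ∃ (T : I → ι) (r : ι → ι ⊕ I), (border A T r).det ≠ 0 := by
  classical
  obtain ⟨T, hT⟩ : ∃ T : I → ι, ∀ w : ι → K, A *ᵥ w = 0 → (∀ i, w (T i) = 0) → w = 0 := by
    obtain ⟨T0⟩ := hI
    obtain ⟨b⟩ : Nonempty (Module.Basis (Fin (Module.finrank K (LinearMap.ker A.mulVecLin))) K
      (LinearMap.ker A.mulVecLin)) := ⟨Module.finBasis K _⟩
    have hli : LinearIndependent K fun j => (b j : ι → K) :=
      b.linearIndependent.map' _ (Submodule.ker_subtype _)
    obtain ⟨S, hS⟩ := exists_minor_ne _ hli
    have hcard : Fintype.card (Fin (Module.finrank K (LinearMap.ker A.mulVecLin))) ≤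
        Fintype.card I := by
      rw [Fintype.card_fin]
      exact hA
    obtain ⟨f⟩ := Function.Embedding.nonempty_of_card_le hcard
    refine ⟨Function.extend f S T0, fun w hw h0 => ?_⟩
    have hwk : w ∈ LinearMap.ker A.mulVecLin := by
      rw [LinearMap.mem_ker, Matrix.mulVecLin_apply]
      exact hw
    have hrep : w = ∑ j, b.repr ⟨w, hwk⟩ j • (b j : ι → K) := by
      have h1 := congrArg Subtype.val (b.sum_repr ⟨w, hwk⟩)
      have h2 : w = ((∑ i, b.repr ⟨w, hwk⟩ i • b i : LinearMap.ker A.mulVecLin) : ι → K) :=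
        h1.symm
      refine h2.trans ?_
      rw [AddSubmonoidClass.coe_finsetSum]
      apply Finset.sum_congr rfl
      intro j _
      rfl
    have h2 : (Matrix.of fun i j => (b j : ι → K) (S i)) *ᵥ (b.repr ⟨w, hwk⟩) = 0 := by
      ext i
      have h3 := h0 (f i)
      rw [f.injective.extend_apply] at h3
      rw [hrep, Finset.sum_apply] at h3
      rw [Pi.zero_apply, ← h3]
      simp only [Matrix.mulVec, dotProduct, Matrix.of_apply, Pi.smul_apply, smul_eq_mul]
      exact Finset.sum_congr rfl fun j _ => mul_comm _ _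
    have h4 := Matrix.eq_zero_of_mulVec_eq_zero hS h2
    rw [hrep]
    apply Finset.sum_eq_zero
    intro j _
    rw [congrFun h4 j, Pi.zero_apply, zero_smul]
  have hli : LinearIndependent K fun v : ι =>
      (Sum.elim (fun u => A u v) (fun i => if v = T i then 1 else 0) : ι ⊕ I → K) := by
    rw [Fintype.linearIndependent_iff]
    intro g hg
    have h1 : A *ᵥ g = 0 := by
      ext u
      have h2 := congrFun hg (Sum.inl u)
      rw [Finset.sum_apply] at h2
      simp only [Pi.smul_apply, Sum.elim_inl, smul_eq_mul, Pi.zero_apply] at h2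
      rw [Pi.zero_apply, ← h2]
      simp only [Matrix.mulVec, dotProduct]
      exact Finset.sum_congr rfl fun j _ => mul_comm _ _
    have h3 : ∀ i, g (T i) = 0 := by
      intro i
      have h2 := congrFun hg (Sum.inr i)
      rw [Finset.sum_apply] at h2
      simpa using h2
    exact congrFun (hT g h1 h3)
  obtain ⟨r, hr⟩ := exists_minor_ne _ hli
  exact ⟨T, r, hr⟩

end Pool.Agent.helper90.QM
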