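import Pool.Agent.helper90.QM.Homog
import Pool.Agent.helper90.QM.Minors

/-!
# The minors of the Jacobian matrix have no common factor

Proof: `minor F S` is homogeneous; at the point `p` some minor is nonzero (`exists_minor_ne`), so
`g` divides a nonzero homogeneous polynomial and is homogeneous of some degree `m`
(`homogeneous_of_dvd`).  If `m ≥ 1`, then `g` has a zero `s p + t q ≠ 0` (`exists_zero_pencil`),
where all the minors vanish, against `Good.pencil` and `exists_minor_ne`.  So `m = 0` and `g` is a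
constant (nonzero).
-/

set_option autoImplicit false

namespace Pool.Agent.helper90.QM

open MvPolynomial Matrix

variable {K : Type*} [Field K] {ι I : Type*} [Fintype I] [DecidableEq I]

theorem eval_minor (F : I → MvPolynomial ι K) (S : I → ι) (x : ι → K) :
    eval x (minor F S) = (Matrix.of fun i j : I => gradAt (F j) x (S i)).det := by
  unfold minor
  rw [RingHom.map_det]
  rfl

theorem minor_homogeneous (F : I → MvPolynomial ι K) (d : I → ℕ)
    (hF : ∀ i, (F i).IsHomogeneous (d i)) (S : I → ι) :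
    (minor F S).IsHomogeneous (∑ i, (d i - 1)) := by
  unfold minor
  rw [Matrix.det_apply']
  refine IsHomogeneous.sum _ _ _ fun σ _ => ?_
  have h1 : ((((Equiv.Perm.sign σ : ℤˣ) : ℤ) : MvPolynomial ι K)).IsHomogeneous 0 := by
    have h2 : ((((Equiv.Perm.sign σ : ℤˣ) : ℤ) : MvPolynomial ι K)) =
        C ((((Equiv.Perm.sign σ : ℤˣ) : ℤ) : K)) := by simp
    rw [h2]
    exact isHomogeneous_C _ _
  have h3 : (∏ i, (Matrix.of fun i j : I => pderiv (S i) (F j)) (σ i) i).IsHomogeneous
      (∑ i, (d i - 1)) :=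
    IsHomogeneous.prod _ _ _ fun i _ => (hF i).pderiv
  simpa using h1.mul h3

/-- if there is one good point some minor is not zero -/
theorem isUnit_of_dvd_minor [IsAlgClosed K] [Fintype ι] {P : Matrix ι ι (MvPolynomial ι K)}
    {F : I → MvPolynomial ι K} {d : I → ℕ} {p q : ι → K} (h : Good P F d p q)
    (g : MvPolynomial ι K) (hg : ∀ S : I → ι, g ∣ minor F S) : IsUnit g := by
  have key : ∀ s t : K, ¬ (s = 0 ∧ t = 0) →
      ∃ S : I → ι, eval (s • p + t • q) (minor F S) ≠ 0 := by
    intro s t hst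
    obtain ⟨S, hS⟩ := exists_minor_ne _ (h.pencil s t hst)
    exact ⟨S, by rw [eval_minor]; exact hS⟩
  obtain ⟨S, hS⟩ := key 1 0 (by simp)
  have hne : minor F S ≠ 0 := by
    intro h0
    rw [h0, map_zero] at hS
    exact hS rfl
  obtain ⟨m, hm⟩ := homogeneous_of_dvd (minor_homogeneous F d h.hom S) hne (hg S)
  have hg0 : g ≠ 0 := by
    rintro rfl
    exact hne (zero_dvd_iff.1 (hg S))
  rcases Nat.eq_zero_or_pos m with h0 | h1
  · subst h0
    have h2 : g.totalDegree = 0 := Nat.le_zero.1 hm.totalDegree_le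
    rw [totalDegree_eq_zero_iff_eq_C] at h2
    have h3 : g.coeff 0 ≠ 0 := by
      intro h4
      rw [h4, C_0] at h2
      exact hg0 h2
    rw [h2]
    exact (IsUnit.mk0 _ h3).map C
  · exfalso
    obtain ⟨s, t, hst, hz⟩ := exists_zero_pencil hm h1 p q
    obtain ⟨S', hS'⟩ := key s t hst
    obtain ⟨a, ha⟩ := hg S'
    apply hS'
    rw [ha, map_mul, hz, zero_mul]

end Pool.Agent.helper90.QM
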